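import Pool.Agent.Lib.SLG.SpecM
import Pool.Agent.Lib.SLN.DefM

/-!
MP_00e23e_nt, project NLM (all classes, no lock, moduli with an ARBITRARY divisor m ≤ x^μ, μ < 1/5), chapter L (helper83): the
lattice chapter and the pair bound. Final statements MfiStmt and SLN.PbMStmt (SLN/DefM.lean). The index of the lattice is m B, m coprime to B; only the
primes of B w1 w2 are ≤ y. Models: SLG/Lgd.lean, SLG/LfiT.lean, SLN/PbF.lean.

IDEA. e, f is a reduced basis of the lattice of index B (LalT with B and W m in place of W). The points are j f + i e; the line j is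
cut into the classes i = c + m t modulo m. On a class the condition modulo m is constant, the phase modulo m is constant, the step is
m e. The number of the pairs (j, c), 0 < |j| ≤ J, whose points lie in the lattice modulo m is ≤ 2J: with E = e.1 - l e.2,
F = f.1 - l f.2, m1 = gcd(m, E), gcd(m1, F) = 1, the condition is m ∣ j F + c E, so m1 ∣ j and c is fixed modulo m/m1.

RULES. Module X: file Pool/Agent/Lib/NM/X.lean, first line `import Pool.Agent.Lib.NM.SpecL`, then `namespace Pool.Agent.Lib.NM` and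
the two `open` lines below; private lemmas with names starting with X_ (they must be private), final theorem
`theorem tX (h1 : AStmt) ... : XStmt`; the statements listed under Uses are hypotheses of your theorem, in this order. Never use
congr!. Every module below 60 s.
-/

namespace Pool.Agent.Lib.NM

open Finset Pool.Agent.Lib.EH3 Pool.Agent.Lib.TB Pool.Agent.Results.MP_00e23e_nt Pool.Agent.Lib.MI
open Pool.Agent.Lib.SLG (nm dt Bs pt2 bx JJ tz)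

/-- the point j f + i e lies in the lattice modulo m -/
def Dm (m : ℕ) (l : ℤ) (e f : ℤ × ℤ) (i j : ℤ) : Prop := (m : ℤ) ∣ (pt2 e f i j).1 - l * (pt2 e f i j).2

instance (m : ℕ) (l : ℤ) (e f : ℤ × ℤ) (i j : ℤ) : Decidable (Dm m l e f i j) := by unfold Dm; infer_instance

/-- Module Mcl (theorem tMcl; the classes). Uses: nothing.
Proof. E = e.1 - l e.2, F = f.1 - l f.2: Dm i j is m ∣ j F + i E (ring). m1 = gcd(m, E) = Int.gcd m E ≥ 1. gcd(m1, F) = 1: a common prime p divides E f.2 - e.2 F = dt e f = ±B, but p ∣ m. So m1 ∣ j F gives m1 ∣ j. If Dm i j, Dm i' j: m ∣ (i - i') E, (m/m1) ∣ (i - i') (E/m1), m/m1 and E/m1 are coprime.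
The multiples j ≠ 0 of m1 in [-J, J] are ±m1, .., ±m1 (J/m1) (j ↦ j/m1 is injective on them, image in (Icc (-(J/m1)) (J/m1)).filter (· ≠ 0), which has 2 (J/m1) elements: LfiT_card in SLG/LfiT.lean). For every j the c ∈ range m with Dm c j are all congruent modulo m/m1: c ↦ c / (m/m1) is injective on them with image in range m1: at most m1;
none if m1 does not divide j. Sum ≤ m1 (2J/m1). -/
def MclStmt : Prop := ∀ (m B : ℕ) (l : ℤ) (e f : ℤ × ℤ), 1 ≤ m → 1 ≤ B → m.Coprime B → Bs B l e f →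
  ∃ m1 : ℕ, 1 ≤ m1 ∧ m1 ∣ m ∧ (∀ i j : ℤ, Dm m l e f i j → (m1 : ℤ) ∣ j) ∧
    (∀ i i' j : ℤ, Dm m l e f i j → Dm m l e f i' j → ((m / m1 : ℕ) : ℤ) ∣ i - i') ∧
    ∀ J : ℤ, 0 ≤ J → ((#((Icc (-J) J).filter (fun j => j ≠ 0 ∧ (m1 : ℤ) ∣ j)) : ℕ) : ℝ) ≤ 2 * (J : ℝ) / m1 ∧
      ∑ j ∈ (Icc (-J) J).filter (fun j => j ≠ 0), ((#((range m).filter (fun c : ℕ => Dm m l e f (c : ℤ) j)) : ℕ) : ℝ) ≤
        2 * (J : ℝ)

/-- Module Mgd (theorem tMgd; the points with a large gcd outside of the line 0). Uses: SLG.LbsStmt, MclStmt. MODEL: SLG/Lgd.lean.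
Proof. m1 from Mcl, m2 = m/m1. j ≠ 0, i counted, n = pt2 e f i j, t = gcd(n.1, n.2) > t0: t is coprime to m B (n.1 is), t ∣ i and t ∣ j as in Lgd_dvd, m1 ∣ j. For fixed j and t ∣ |j|, t > t0, t coprime to m: all counted i are multiples of t and congruent modulo m2, so congruent modulo t m2: there are ≤ (b j - a j)/(t m2) + 1 of them
(i ↦ (i - a j - 1)/(t m2) is injective on them with values in [0, (b j - a j - 1)/(t m2)]), ≤ 2N m1/(nm e m t0) + 1 (nm e ≤ N). Number of t ≤ T, number of j ≤ 2J/m1: total ≤ T (2J/m1) (2N m1/(nm e m t0) + 1) ≤ T (4 J N/(nm e m t0) + 2J), 2J ≤ 8 N nm e/B. -/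
def MgdStmt : Prop := ∀ (X T : ℝ) (m B : ℕ) (l : ℤ) (e f : ℤ × ℤ) (N t0 : ℕ) (a b : ℤ → ℤ), Tau X T → 1 ≤ m → 1 ≤ B →
  1 ≤ N → 1 ≤ t0 → m.Coprime B → Bs B l e f → nm e ≤ (N : ℤ) → 4 * (N : ℝ) * (nm e : ℝ) ≤ X →
  (∀ j : ℤ, a j ≤ b j ∧ ((b j - a j : ℤ) : ℝ) ≤ (N : ℝ) / (nm e : ℝ) + 1) →
  ∑ j ∈ (Icc (-(JJ B N e)) (JJ B N e)).filter (fun j => j ≠ 0), ((#((Ioc (a j) (b j)).filter (fun i =>
    (Dm m l e f i j ∧ Int.gcd (pt2 e f i j).1 (m * B : ℕ) = 1) ∧ t0 < Int.gcd (pt2 e f i j).1 (pt2 e f i j).2)) : ℕ) : ℝ) ≤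
    T * (16 * (N : ℝ) ^ 2 / ((m : ℝ) * B * t0) + 8 * (N : ℝ) * (nm e : ℝ) / (B : ℝ))

/-- Module Mdc (theorem tMdc; a sum over an interval by classes). Uses: nothing.
Proof. i ↦ (i % m, i / m); c + m t > a iff t > (a - c)/m (floor), c + m t ≤ b iff t ≤ (b - c)/m. -/
def MdcStmt : Prop := ∀ (m : ℕ) (a b : ℤ) (G : ℤ → ℂ), 1 ≤ m →
  ∑ i ∈ Ioc a b, G i = ∑ c ∈ range m, ∑ t ∈ Ioc ((a - c) / (m : ℤ)) ((b - c) / (m : ℤ)), G (c + m * t)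

/-- Module Mph (theorem tMph; the phase modulo m is constant on a class). Uses: SLG.GspStmt. (Gsp with two factors.) -/
def MphStmt : Prop := ∀ (c : ℤ) (m Q : ℕ), Squarefree (m * Q) →
  ∃ c' : ℤ, (∀ p : ℕ, p.Prime → p ∣ Q → ((p : ℤ) ∣ c' ↔ (p : ℤ) ∣ c)) ∧ ∀ n u : ℤ, ∃ K : ℂ, ‖K‖ ≤ 1 ∧
    ∀ t : ℤ, tz c (m * Q) (n + t * (m * u)) = K * tz c' Q (n + t * (m * u))

/-- Module Mfi (theorem tMfi; FINAL STATEMENT of the lattice). Uses: SLG.LbsStmt, SLG.LinStmt, SLG.LzeStmt, SLG.LalTStmt, SLG.LmzStmt,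
SLG.LliTStmt, MclStmt, MgdStmt, MdcStmt, MphStmt. MODEL: SLG/LfiT.lean. -/
def MfiStmt : Prop := ∀ k : ℕ, ∃ C : ℝ, 1 ≤ C ∧ ∃ A : ℕ, ∀ (X T W Z y Δ : ℝ) (N m B w1 w2 GQ G1 G2 t0 : ℕ)
    (l c1 c2 : ℤ), Tau X T → 1 ≤ Z → 1 ≤ y → 0 < Δ → 1 ≤ Z * Δ ^ (2 ^ (k + 1)) → 1 ≤ N → 1 ≤ t0 → 1 ≤ m → 3 ≤ B →
  Squarefree (m * B * w1) → Squarefree (m * B * w2) → Int.gcd l (m * B : ℕ) = 1 → 8 * (N : ℝ) * B ≤ X →
  (∀ p : ℕ, p.Prime → p ∣ B * w1 * w2 → (p : ℝ) ≤ y) → GQ ∣ B → G1 ∣ w1 → G2 ∣ w2 → G1.Coprime w2 → G2.Coprime w1 →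
  (∀ p : ℕ, p.Prime → p ∣ GQ * G1 → 2 ^ k < p ∧ ¬ (p : ℤ) ∣ c1) →
  (∀ p : ℕ, p.Prime → p ∣ G2 → 2 ^ k < p ∧ ¬ (p : ℤ) ∣ c2) →
  Z ^ 2 ≤ (GQ : ℝ) * G1 * G2 → (W * m) ^ 2 * (B : ℝ) ≤ (N : ℝ) ^ 2 →
  (W * m * Z * B) ^ 2 ≤ (N : ℝ) ^ 2 * GQ * (GQ * G1 * G2) → C * (Z * y) ^ 2 ≤ W →
  (B : ℝ) * w1 * w2 ≤ (W / (C * (Z * y))) ^ k →
  ‖∑ n1 ∈ Ioc N (2 * N), ∑ n2 ∈ Ioc N (2 * N), (if ((m * B : ℕ) : ℤ) ∣ (n1 : ℤ) - l * n2 ∧ Nat.gcd n1 n2 ≤ t0 then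
    t1g c1 (m * B * w1) n1 * t1g c2 w2 n2 else 0)‖ ≤
    C * T ^ A * ((N : ℝ) ^ 2 / ((m : ℝ) * B) * (Δ + 1 / t0 + 1 / W) + t0)

/-! Module PbM (theorem tPbM : SLN.PhNStmt → MfiStmt → SLN.PbMStmt, in NM/PbM.lean; FINAL STATEMENT SLN.PbMStmt (SLN/DefM.lean), the
pair bound for far pairs). MODEL: SLN/PbF.lean. -/

end Pool.Agent.Lib.NM
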