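import Pool.Agent.Lib.NM.SpecL

/-!
MP_00e23e_nt, project NLM, chapter L, module Mcl (helper78): the classes modulo m.
-/

set_option autoImplicit false

namespace Pool.Agent.Lib.NM

open Finset Pool.Agent.Lib.EH3 Pool.Agent.Lib.TB Pool.Agent.Results.MP_00e23e_nt Pool.Agent.Lib.MI
open Pool.Agent.Lib.SLG (nm dt Bs pt2 bx JJ tz)

private lemma Mcl_iff (m : ℕ) (l : ℤ) (e f : ℤ × ℤ) (i j : ℤ) :
    Dm m l e f i j ↔ (m : ℤ) ∣ j * (f.1 - l * f.2) + i * (e.1 - l * e.2) := by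
  unfold Dm pt2
  have h : (j * f.1 + i * e.1) - l * (j * f.2 + i * e.2) =
      j * (f.1 - l * f.2) + i * (e.1 - l * e.2) := by ring
  simp only [h]

private lemma Mcl_mult (d : ℕ) (hd : 1 ≤ d) (J : ℤ) (hJ : 0 ≤ J) :
    ((#((Icc (-J) J).filter (fun j => j ≠ 0 ∧ (d : ℤ) ∣ j)) : ℕ) : ℝ) ≤ 2 * (J : ℝ) / d := by
  have hd0 : (0 : ℤ) < d := by exact_mod_cast hd
  set K : ℤ := J / (d : ℤ) with hK
  have hK0 : 0 ≤ K := Int.ediv_nonneg hJ hd0.le
  have h1 : #((Icc (-J) J).filter (fun j => j ≠ 0 ∧ (d : ℤ) ∣ j)) ≤ #((Icc (-K) K).erase 0) := by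
    apply card_le_card_of_injOn (fun j => j / (d : ℤ))
    · intro j hj
      rw [mem_coe, mem_filter, mem_Icc] at hj
      obtain ⟨⟨h2, h3⟩, h4, k, rfl⟩ := hj
      rw [mem_coe, mem_erase, mem_Icc]
      have h5 : (d : ℤ) * k / (d : ℤ) = k := Int.mul_ediv_cancel_left _ hd0.ne'
      change (d : ℤ) * k / (d : ℤ) ≠ 0 ∧ -K ≤ (d : ℤ) * k / (d : ℤ) ∧ (d : ℤ) * k / (d : ℤ) ≤ K
      rw [h5]
      have h6 : k ≤ K := by
        rw [hK, Int.le_ediv_iff_mul_le hd0]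
        linarith [mul_comm (d : ℤ) k]
      have h7 : -k ≤ K := by
        rw [hK, Int.le_ediv_iff_mul_le hd0]
        linarith [mul_comm (d : ℤ) k]
      refine ⟨?_, by linarith, h6⟩
      rintro rfl
      exact h4 (mul_zero _)
    · intro j hj j' hj' h
      rw [mem_coe, mem_filter] at hj hj'
      obtain ⟨-, -, k, rfl⟩ := hj
      obtain ⟨-, -, k', rfl⟩ := hj'
      have h' : (d : ℤ) * k / (d : ℤ) = (d : ℤ) * k' / (d : ℤ) := h
      rw [Int.mul_ediv_cancel_left _ hd0.ne', Int.mul_ediv_cancel_left _ hd0.ne'] at h'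
      rw [h']
  have h2 : ((#((Icc (-K) K).erase 0) : ℕ) : ℤ) = 2 * K := by
    rw [card_erase_of_mem (by rw [mem_Icc]; constructor <;> linarith), Int.card_Icc]
    omega
  have h3 : ((#((Icc (-J) J).filter (fun j => j ≠ 0 ∧ (d : ℤ) ∣ j)) : ℕ) : ℤ) ≤ 2 * K := by
    rw [← h2]
    exact_mod_cast h1
  have h4 : ((#((Icc (-J) J).filter (fun j => j ≠ 0 ∧ (d : ℤ) ∣ j)) : ℕ) : ℝ) ≤ 2 * (K : ℝ) := by
    exact_mod_cast h3
  have hdr : (0 : ℝ) < d := by exact_mod_cast hd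
  have h5 : (K : ℝ) ≤ (J : ℝ) / d := by
    rw [le_div_iff₀ hdr]
    have h6 : K * d ≤ J := Int.ediv_mul_le _ hd0.ne'
    exact_mod_cast h6
  calc ((#((Icc (-J) J).filter (fun j => j ≠ 0 ∧ (d : ℤ) ∣ j)) : ℕ) : ℝ) ≤ 2 * (K : ℝ) := h4
    _ ≤ 2 * ((J : ℝ) / d) := by linarith
    _ = 2 * (J : ℝ) / d := by ring

theorem tMcl : MclStmt := by
  classical
  intro m B l e f hm hB hmB hBs
  obtain ⟨-, -, hdt⟩ := hBs
  set E : ℤ := e.1 - l * e.2 with hE
  set F : ℤ := f.1 - l * f.2 with hF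
  have hdm : ∀ i j : ℤ, Dm m l e f i j ↔ (m : ℤ) ∣ j * F + i * E := fun i j => Mcl_iff m l e f i j
  set m1 : ℕ := Int.gcd (m : ℤ) E with hm1
  have hmz : (m : ℤ) ≠ 0 := by
    have : (0 : ℤ) < m := by exact_mod_cast hm
    exact this.ne'
  have hm1pos : 0 < m1 := Int.gcd_pos_of_ne_zero_left _ hmz
  have hm1m : m1 ∣ m := by
    have h := Int.gcd_dvd_left (a := (m : ℤ)) (b := E)
    exact_mod_cast h
  have hm1E : (m1 : ℤ) ∣ E := Int.gcd_dvd_right _ _
  have hcop : IsCoprime (m1 : ℤ) F := by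
    rw [Int.isCoprime_iff_gcd_eq_one]
    have h1 : ((Int.gcd (m1 : ℤ) F : ℕ) : ℤ) ∣ dt e f := by
      have h2 : dt e f = E * f.2 - e.2 * F := by
        unfold dt
        rw [hE, hF]
        ring
      rw [h2]
      have h3 : ((Int.gcd (m1 : ℤ) F : ℕ) : ℤ) ∣ E := (Int.gcd_dvd_left _ _).trans hm1E
      have h4 : ((Int.gcd (m1 : ℤ) F : ℕ) : ℤ) ∣ F := Int.gcd_dvd_right _ _
      exact (h3.mul_right _).sub (h4.mul_left _)
    have h2 : ((Int.gcd (m1 : ℤ) F : ℕ) : ℤ) ∣ (B : ℤ) := by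
      rw [← hdt]
      exact (dvd_abs _ _).2 h1
    have h3 : Int.gcd (m1 : ℤ) F ∣ B := by exact_mod_cast h2
    have h4 : Int.gcd (m1 : ℤ) F ∣ m := by
      have h5 := Int.gcd_dvd_left (a := (m1 : ℤ)) (b := F)
      have h6 : Int.gcd (m1 : ℤ) F ∣ m1 := by exact_mod_cast h5
      exact h6.trans hm1m
    exact Nat.eq_one_of_dvd_coprimes hmB h4 h3
  have hA : ∀ i j : ℤ, Dm m l e f i j → (m1 : ℤ) ∣ j := by
    intro i j h
    rw [hdm] at h
    have h1 : (m1 : ℤ) ∣ j * F + i * E := (by exact_mod_cast hm1m : (m1 : ℤ) ∣ (m : ℤ)).trans h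
    have h2 : (m1 : ℤ) ∣ j * F := (Int.dvd_add_left (hm1E.mul_left i)).1 h1
    exact hcop.dvd_of_dvd_mul_right h2
  obtain ⟨m2, hm2⟩ := hm1m
  have hdiv : m / m1 = m2 := by
    rw [hm2]
    exact Nat.mul_div_cancel_left _ hm1pos
  have hm2pos : 0 < m2 := by
    rcases Nat.eq_zero_or_pos m2 with h | h
    · rw [h, mul_zero] at hm2
      omega
    · exact h
  obtain ⟨E', hE'⟩ := hm1E
  have hm1z : (m1 : ℤ) ≠ 0 := by exact_mod_cast hm1pos.ne'
  have hcop2 : IsCoprime (m2 : ℤ) E' := by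
    rw [Int.isCoprime_iff_gcd_eq_one]
    have h1 : Int.gcd ((m1 : ℤ) * m2) ((m1 : ℤ) * E') = m1 * Int.gcd (m2 : ℤ) E' := by
      rw [Int.gcd_mul_left, Int.natAbs_natCast]
    have h2 : Int.gcd ((m1 : ℤ) * m2) ((m1 : ℤ) * E') = m1 := by
      have hmc : (m1 : ℤ) * m2 = m := by exact_mod_cast hm2.symm
      exact (congrArg₂ Int.gcd hmc hE'.symm).trans hm1.symm
    rw [h2] at h1
    have h3 : m1 * 1 = m1 * Int.gcd (m2 : ℤ) E' := by rw [mul_one]; exact h1
    exact (Nat.eq_of_mul_eq_mul_left hm1pos h3).symm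
  have hBm : ∀ i i' j : ℤ, Dm m l e f i j → Dm m l e f i' j → (m2 : ℤ) ∣ i - i' := by
    intro i i' j h h'
    rw [hdm] at h h'
    have h1 : (m : ℤ) ∣ (i - i') * E := by
      have h2 := h.sub h'
      have h3 : j * F + i * E - (j * F + i' * E) = (i - i') * E := by ring
      rwa [h3] at h2
    rw [hE', hm2] at h1
    push_cast at h1
    have h2 : (m1 : ℤ) * m2 ∣ (m1 : ℤ) * ((i - i') * E') := by
      have h3 : (i - i') * ((m1 : ℤ) * E') = (m1 : ℤ) * ((i - i') * E') := by ring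
      rwa [h3] at h1
    have h3 : (m2 : ℤ) ∣ (i - i') * E' := Int.dvd_of_mul_dvd_mul_left hm1z h2
    exact hcop2.dvd_of_dvd_mul_right h3
  refine ⟨m1, hm1pos, ⟨m2, hm2⟩, hA, ?_, ?_⟩
  · intro i i' j h h'
    rw [hdiv]
    exact hBm i i' j h h'
  · intro J hJ
    refine ⟨Mcl_mult m1 hm1pos J hJ, ?_⟩
    have hone : ∀ j : ℤ, #((range m).filter (fun c : ℕ => Dm m l e f (c : ℤ) j)) ≤ m1 := by
      intro j
      have h1 : #((range m).filter (fun c : ℕ => Dm m l e f (c : ℤ) j)) ≤ #(range m1) := by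
        apply card_le_card_of_injOn (fun c => c / m2)
        · intro c hc
          rw [mem_coe, mem_filter, mem_range] at hc
          rw [mem_coe, mem_range]
          change c / m2 < m1
          rw [Nat.div_lt_iff_lt_mul hm2pos]
          rw [hm2] at hc
          exact hc.1
        · intro c hc c' hc' h
          rw [mem_coe, mem_filter] at hc hc'
          have h2 := hBm c c' j hc.2 hc'.2
          have h3 : c / m2 = c' / m2 := h
          have h4 : c % m2 = c' % m2 := by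
            have h5 : (c : ℤ) ≡ c' [ZMOD m2] := (Int.modEq_iff_dvd.2 (by
              have h6 := (dvd_neg.2 h2)
              rwa [neg_sub] at h6))
            exact_mod_cast h5
          rw [← Nat.div_add_mod c m2, ← Nat.div_add_mod c' m2, h3, h4]
      rwa [card_range] at h1
    have hzero : ∀ j : ℤ, ¬ (m1 : ℤ) ∣ j →
        #((range m).filter (fun c : ℕ => Dm m l e f (c : ℤ) j)) = 0 := by
      intro j hj
      rw [card_eq_zero, filter_eq_empty_iff]
      intro c _ h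
      exact hj (hA _ _ h)
    have hm1r : (0 : ℝ) < m1 := by exact_mod_cast hm1pos
    calc ∑ j ∈ (Icc (-J) J).filter (fun j => j ≠ 0),
          ((#((range m).filter (fun c : ℕ => Dm m l e f (c : ℤ) j)) : ℕ) : ℝ)
        ≤ ∑ j ∈ (Icc (-J) J).filter (fun j => j ≠ 0), (if (m1 : ℤ) ∣ j then (m1 : ℝ) else 0) := by
          refine sum_le_sum fun j _ => ?_
          by_cases h : (m1 : ℤ) ∣ j
          · rw [if_pos h]
            exact_mod_cast hone j
          · rw [if_neg h, hzero j h, Nat.cast_zero]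
      _ = ((#((Icc (-J) J).filter (fun j => j ≠ 0 ∧ (m1 : ℤ) ∣ j)) : ℕ) : ℝ) * m1 := by
          rw [← sum_filter, filter_filter, sum_const, nsmul_eq_mul]
      _ ≤ 2 * (J : ℝ) / m1 * m1 := by
          exact mul_le_mul_of_nonneg_right (Mcl_mult m1 hm1pos J hJ) hm1r.le
      _ = 2 * (J : ℝ) := by
          rw [div_mul_cancel₀ _ hm1r.ne']

end Pool.Agent.Lib.NM
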