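import Pool.Agent.Lib.NM.SpecL

/-!
MP_00e23e_nt, project NLM, chapter L, modules Mdc (a sum over an interval by classes) and Mph (the phase on a class); helper83.
-/

set_option autoImplicit false

namespace Pool.Agent.Lib.NM

open Finset Pool.Agent.Lib.EH3 Pool.Agent.Lib.TB Pool.Agent.Results.MP_00e23e_nt Pool.Agent.Lib.MI
open Pool.Agent.Lib.SLG (nm dt Bs pt2 bx JJ tz)

theorem tMdc : MdcStmt := by
  intro m a b G hm
  have hm0 : (0 : ℤ) < (m : ℤ) := by exact_mod_cast hm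
  rw [Finset.sum_sigma' (range m) (fun c => Ioc ((a - (c : ℤ)) / (m : ℤ)) ((b - (c : ℤ)) / (m : ℤ)))
    (fun c t => G ((c : ℤ) + m * t))]
  refine Finset.sum_bij' (fun i _ => ⟨(i % (m : ℤ)).toNat, i / (m : ℤ)⟩) (fun x _ => (x.1 : ℤ) + m * x.2) ?_ ?_ ?_ ?_ ?_
  · intro i hi
    obtain ⟨h1, h2⟩ := mem_Ioc.1 hi
    have h3 : 0 ≤ i % (m : ℤ) := Int.emod_nonneg _ hm0.ne'
    have h4 : i % (m : ℤ) < m := Int.emod_lt_of_pos _ hm0
    have h5 : (((i % (m : ℤ)).toNat : ℕ) : ℤ) = i % (m : ℤ) := Int.toNat_of_nonneg h3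
    have h6 : (m : ℤ) * (i / (m : ℤ)) + i % (m : ℤ) = i := Int.mul_ediv_add_emod i m
    rw [mem_sigma]
    have h7 : (i % (m : ℤ)).toNat < m := by omega
    refine ⟨mem_range.2 h7, mem_Ioc.2 ⟨?_, ?_⟩⟩
    · simp only [h5]
      rw [Int.ediv_lt_iff_lt_mul hm0, mul_comm]
      linarith
    · simp only [h5]
      rw [Int.le_ediv_iff_mul_le hm0, mul_comm]
      linarith
  · rintro ⟨c, t⟩ hx
    rw [mem_sigma] at hx
    obtain ⟨-, h2⟩ := hx
    obtain ⟨h3, h4⟩ := mem_Ioc.1 h2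
    rw [Int.ediv_lt_iff_lt_mul hm0, mul_comm] at h3
    rw [Int.le_ediv_iff_mul_le hm0, mul_comm] at h4
    exact mem_Ioc.2 ⟨by linarith, by linarith⟩
  · intro i _
    have h3 : 0 ≤ i % (m : ℤ) := Int.emod_nonneg _ hm0.ne'
    have h5 : (((i % (m : ℤ)).toNat : ℕ) : ℤ) = i % (m : ℤ) := Int.toNat_of_nonneg h3
    have h6 : (m : ℤ) * (i / (m : ℤ)) + i % (m : ℤ) = i := Int.mul_ediv_add_emod i m
    simp only [h5]
    linarith
  · rintro ⟨c, t⟩ hx
    rw [mem_sigma] at hx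
    obtain ⟨h1, -⟩ := hx
    have hc : c < m := mem_range.1 h1
    have e1 : ((c : ℤ) + m * t) % (m : ℤ) = c := by
      rw [Int.add_mul_emod_self_left]
      exact Int.emod_eq_of_lt (by positivity) (by exact_mod_cast hc)
    have e2 : ((c : ℤ) + m * t) / (m : ℤ) = t := by
      rw [Int.add_mul_ediv_left _ _ hm0.ne', Int.ediv_eq_zero_of_lt (by positivity) (by exact_mod_cast hc), zero_add]
    simp only [e1, e2, Int.toNat_natCast]
  · intro i _
    have h3 : 0 ≤ i % (m : ℤ) := Int.emod_nonneg _ hm0.ne'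
    have h5 : (((i % (m : ℤ)).toNat : ℕ) : ℤ) = i % (m : ℤ) := Int.toNat_of_nonneg h3
    have h6 : (m : ℤ) * (i / (m : ℤ)) + i % (m : ℤ) = i := Int.mul_ediv_add_emod i m
    simp only [h5]
    congr 1
    linarith

theorem tMph (h1 : SLG.GspStmt) : MphStmt := by
  intro c m Q hs
  have hm : m ≠ 0 := fun h => by
    rw [h, zero_mul] at hs
    exact hs.ne_zero rfl
  obtain ⟨d, hd, hd'⟩ := h1 {0, 1} (fun j => if j = 0 then m else Q) c (by
    rw [prod_pair (by norm_num)]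
    simpa using hs)
  have hp : ∀ n : ℤ, tz c (m * Q) n = tz (d 0) m n * tz (d 1) Q n := by
    intro n
    have := hd n
    rw [prod_pair (by norm_num), prod_pair (by norm_num)] at this
    simpa using this
  refine ⟨d 1, fun p hp hpQ => hd' 1 (by simp) p hp (by simpa using hpQ), fun n u => ⟨tz (d 0) m n, t1_norm_g _ _ _, fun t => ?_⟩⟩
  rw [hp]
  congr 1
  unfold tz
  have e : (n + t * ((m : ℤ) * u)) % (m : ℤ) = n % (m : ℤ) := by
    have : n + t * ((m : ℤ) * u) = n + (m : ℤ) * (t * u) := by ring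
    rw [this, Int.add_mul_emod_self_left]
  rw [e]

end Pool.Agent.Lib.NM
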