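import Pool.Agent.Lib.NM.SpecL

/-!
MP_00e23e_nt, project NLM, chapter L (helper36): the points with a large gcd outside of the line 0 (MgdStmt).
-/

set_option autoImplicit false

namespace Pool.Agent.Lib.NM

open Finset Pool.Agent.Lib.EH3 Pool.Agent.Lib.TB Pool.Agent.Results.MP_00e23e_nt Pool.Agent.Lib.MI
open Pool.Agent.Lib.SLG (nm dt Bs pt2 bx JJ tz)

private theorem Mgd_J (B N : ℕ) (e : ℤ × ℤ) (hB : 1 ≤ B) (he : 1 ≤ nm e) :
    0 ≤ JJ B N e ∧ ((JJ B N e : ℤ) : ℝ) ≤ 4 * (N : ℝ) * (nm e : ℝ) / (B : ℝ) := by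
  have hB' : (0 : ℤ) < (B : ℤ) := by exact_mod_cast hB
  constructor
  · unfold JJ
    apply Int.ediv_nonneg _ hB'.le
    have : (0 : ℤ) ≤ nm e := by omega
    positivity
  · have h1 : JJ B N e * (B : ℤ) ≤ 4 * (N : ℤ) * nm e := Int.ediv_mul_le _ hB'.ne'
    have h2 : ((JJ B N e : ℤ) : ℝ) * (B : ℝ) ≤ 4 * (N : ℝ) * (nm e : ℝ) := by exact_mod_cast h1
    have hBr : (0 : ℝ) < (B : ℝ) := by exact_mod_cast hB
    rw [le_div_iff₀ hBr]
    exact h2

/-- the gcd of a counted point divides both coordinates -/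
private theorem Mgd_dvd (B : ℕ) (l : ℤ) (e f : ℤ × ℤ) (hBs : Bs B l e f) (i j : ℤ)
    (hc : Int.gcd (pt2 e f i j).1 B = 1) :
    ((Int.gcd (pt2 e f i j).1 (pt2 e f i j).2 : ℕ) : ℤ) ∣ i ∧
    ((Int.gcd (pt2 e f i j).1 (pt2 e f i j).2 : ℕ) : ℤ) ∣ j := by
  set n := pt2 e f i j with hn
  set t := Int.gcd n.1 n.2 with ht
  have ht1 : (t : ℤ) ∣ n.1 := Int.gcd_dvd_left ..
  have ht2 : (t : ℤ) ∣ n.2 := Int.gcd_dvd_right ..
  have hdt : (dt e f).natAbs = B := by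
    have h := hBs.2.2
    have h2 : ((dt e f).natAbs : ℤ) = (B : ℤ) := by rw [Int.natCast_natAbs]; exact h
    exact_mod_cast h2
  have hcop : Nat.Coprime t B := by
    have h1 : t ∣ n.1.natAbs := Int.natCast_dvd.mp ht1
    have h2 : Nat.Coprime n.1.natAbs B := hc
    exact Nat.Coprime.coprime_dvd_left h1 h2
  have key : ∀ u : ℤ, (t : ℤ) ∣ u * dt e f → (t : ℤ) ∣ u := by
    intro u hu
    have h1 : t ∣ (u * dt e f).natAbs := Int.natCast_dvd.mp hu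
    rw [Int.natAbs_mul, hdt] at h1
    exact Int.natCast_dvd.mpr (hcop.dvd_of_dvd_mul_right h1)
  have hn1 : n.1 = j * f.1 + i * e.1 := by rw [hn]; rfl
  have hn2 : n.2 = j * f.2 + i * e.2 := by rw [hn]; rfl
  constructor
  · apply key
    have h3 : i * dt e f = n.1 * f.2 - n.2 * f.1 := by
      rw [hn1, hn2]; unfold dt; ring
    rw [h3]
    exact dvd_sub (Dvd.dvd.mul_right ht1 _) (Dvd.dvd.mul_right ht2 _)
  · apply key
    have h3 : j * dt e f = e.1 * n.2 - e.2 * n.1 := by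
      rw [hn1, hn2]; unfold dt; ring
    rw [h3]
    exact dvd_sub (Dvd.dvd.mul_left ht2 _) (Dvd.dvd.mul_left ht1 _)

/-- the number of multiples of t in an interval -/
private theorem Mgd_mult (a b : ℤ) (t : ℕ) (ht : 1 ≤ t) (hab : a ≤ b) :
    ((#((Ioc a b).filter (fun i : ℤ => (t : ℤ) ∣ i)) : ℕ) : ℝ) ≤ ((b - a : ℤ) : ℝ) / (t : ℝ) + 1 := by
  have ht0 : (0 : ℤ) < (t : ℤ) := by exact_mod_cast ht
  have htr : (0 : ℝ) < (t : ℝ) := by exact_mod_cast ht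
  have h1 := Int.Ioc_filter_dvd_card a b ht0
  have h2 : ((#((Ioc a b).filter (fun i : ℤ => (t : ℤ) ∣ i)) : ℕ) : ℤ) =
      max (⌊(b : ℚ) / ((t : ℤ) : ℚ)⌋ - ⌊(a : ℚ) / ((t : ℤ) : ℚ)⌋) 0 := by
    rw [← h1]
  have h3 : (⌊(b : ℚ) / ((t : ℤ) : ℚ)⌋ : ℤ) = b / (t : ℤ) := by
    have := Rat.floor_intCast_div_natCast b t
    push_cast
    exact this
  have h4 : (⌊(a : ℚ) / ((t : ℤ) : ℚ)⌋ : ℤ) = a / (t : ℤ) := by
    have := Rat.floor_intCast_div_natCast a t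
    push_cast
    exact this
  rw [h3, h4] at h2
  have h5 : b / (t : ℤ) * t ≤ b := Int.ediv_mul_le _ ht0.ne'
  have h6 : a < (a / (t : ℤ) + 1) * t := Int.lt_ediv_add_one_mul_self a ht0
  have h5r : ((b / (t : ℤ) : ℤ) : ℝ) * (t : ℝ) ≤ (b : ℝ) := by exact_mod_cast h5
  have h6r : (a : ℝ) < (((a / (t : ℤ) : ℤ) : ℝ) + 1) * (t : ℝ) := by exact_mod_cast h6
  have h7 : ((#((Ioc a b).filter (fun i : ℤ => (t : ℤ) ∣ i)) : ℕ) : ℝ) =
      max (((b / (t : ℤ) : ℤ) : ℝ) - ((a / (t : ℤ) : ℤ) : ℝ)) 0 := by exact_mod_cast h2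
  rw [h7]
  have habr : (0 : ℝ) ≤ ((b - a : ℤ) : ℝ) := by
    have : (0 : ℤ) ≤ b - a := by omega
    exact_mod_cast this
  apply max_le
  · rw [← sub_le_iff_le_add, le_div_iff₀ htr]
    push_cast
    nlinarith
  · positivity

/-- elements of an interval which are congruent modulo t -/
private theorem Mgd_cong (a b : ℤ) (t : ℕ) (ht : 1 ≤ t) (hab : a ≤ b) (S : Finset ℤ) (hS : S ⊆ Ioc a b)
    (hc : ∀ i ∈ S, ∀ i' ∈ S, (t : ℤ) ∣ i - i') : ((#S : ℕ) : ℝ) ≤ ((b - a : ℤ) : ℝ) / (t : ℝ) + 1 := by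
  have htr : (0 : ℝ) < (t : ℝ) := by exact_mod_cast ht
  have habr : (0 : ℝ) ≤ ((b - a : ℤ) : ℝ) := by
    have : (0 : ℤ) ≤ b - a := by omega
    exact_mod_cast this
  rcases S.eq_empty_or_nonempty with h0 | ⟨i0, hi0⟩
  · rw [h0, Finset.card_empty]
    push_cast
    have : (0 : ℝ) ≤ ((b - a : ℤ) : ℝ) / (t : ℝ) := by positivity
    push_cast at this
    linarith
  · have h1 : #S ≤ #((Ioc (a - i0) (b - i0)).filter (fun i : ℤ => (t : ℤ) ∣ i)) := by
      refine Finset.card_le_card_of_injOn (fun i => i - i0) ?_ ?_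
      · intro i hi
        have h2 := Finset.mem_Ioc.1 (hS (Finset.mem_coe.1 hi))
        refine Finset.mem_coe.2 (Finset.mem_filter.2 ⟨Finset.mem_Ioc.2
          ⟨by show a - i0 < i - i0; omega, by show i - i0 ≤ b - i0; omega⟩, hc i hi i0 hi0⟩)
      · intro i _ i' _ h
        simpa using h
    have h2 := Mgd_mult (a - i0) (b - i0) t ht (by omega)
    have h3 : ((b - i0 - (a - i0) : ℤ) : ℝ) = ((b - a : ℤ) : ℝ) := by
      congr 1
      ring
    rw [h3] at h2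
    exact le_trans (by exact_mod_cast h1) h2

theorem tMgd (h1 : SLG.LbsStmt) (h2 : MclStmt) : MgdStmt := by
  intro X T m B l e f N t0 a b hT hm hB hN ht0 hmB hBs hnm hX hlen
  obtain ⟨he, _⟩ := h1 B l e f hB hBs
  obtain ⟨m1, hm1, hm1d, hDj, hDi, hcnt⟩ := h2 m B l e f hm hB hmB hBs
  obtain ⟨hJ0, hJ⟩ := Mgd_J B N e hB he
  have hcnt' := (hcnt (JJ B N e) hJ0).1
  have hBr : (0 : ℝ) < (B : ℝ) := by exact_mod_cast hB
  have hB1 : (1 : ℝ) ≤ (B : ℝ) := by exact_mod_cast hB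
  have hmr : (0 : ℝ) < (m : ℝ) := by exact_mod_cast hm
  have hm1r : (0 : ℝ) < (m1 : ℝ) := by exact_mod_cast hm1
  have hm11 : (1 : ℝ) ≤ (m1 : ℝ) := by exact_mod_cast hm1
  have hNr : (0 : ℝ) < (N : ℝ) := by exact_mod_cast hN
  have htr : (0 : ℝ) < (t0 : ℝ) := by exact_mod_cast ht0
  have her : (0 : ℝ) < (nm e : ℝ) := by exact_mod_cast (by omega : 0 < nm e)
  have hnr : (nm e : ℝ) ≤ (N : ℝ) := by exact_mod_cast hnm
  have hT0 : (0 : ℝ) ≤ T := by linarith [hT.1]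
  have hq : (1 : ℝ) ≤ (N : ℝ) / (nm e : ℝ) := by
    rw [le_div_iff₀ her]
    linarith
  have hm2 : 1 ≤ m / m1 := Nat.div_pos (Nat.le_of_dvd hm hm1d) hm1
  have hm2r : ((m / m1 : ℕ) : ℝ) = (m : ℝ) / m1 := Nat.cast_div hm1d hm1r.ne'
  set c : ℝ := 2 * (N : ℝ) * m1 / ((nm e : ℝ) * m * t0) + 1 with hc
  have hc0 : 0 ≤ c := by positivity
  have hline : ∀ j ∈ (Icc (-(JJ B N e)) (JJ B N e)).filter (fun j => j ≠ 0 ∧ (m1 : ℤ) ∣ j),
      ((#((Ioc (a j) (b j)).filter (fun i => (Dm m l e f i j ∧ Int.gcd (pt2 e f i j).1 (m * B : ℕ) = 1) ∧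
        t0 < Int.gcd (pt2 e f i j).1 (pt2 e f i j).2)) : ℕ) : ℝ) ≤ T * c := by
    intro j hj
    rw [Finset.mem_filter, Finset.mem_Icc] at hj
    obtain ⟨⟨hj1, hj2⟩, hj0, -⟩ := hj
    have hjn : 1 ≤ j.natAbs := by omega
    have hjX : (j.natAbs : ℝ) ≤ X := by
      have h2 : (j.natAbs : ℤ) ≤ JJ B N e := by omega
      have h3 : (j.natAbs : ℝ) ≤ ((JJ B N e : ℤ) : ℝ) := by
        have h4 : ((j.natAbs : ℤ) : ℝ) ≤ ((JJ B N e : ℤ) : ℝ) := Int.cast_le.mpr h2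
        rw [Int.cast_natCast] at h4
        exact h4
      refine h3.trans (hJ.trans (le_trans ?_ hX))
      apply div_le_self (by positivity) hB1
    have hsub : (Ioc (a j) (b j)).filter (fun i => (Dm m l e f i j ∧ Int.gcd (pt2 e f i j).1 (m * B : ℕ) = 1) ∧
        t0 < Int.gcd (pt2 e f i j).1 (pt2 e f i j).2) ⊆
        (j.natAbs.divisors.filter (fun t => t0 < t ∧ t.Coprime m)).biUnion
          (fun t => (Ioc (a j) (b j)).filter (fun i : ℤ => (t : ℤ) ∣ i ∧ Dm m l e f i j)) := by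
      intro i hi
      rw [Finset.mem_filter] at hi
      obtain ⟨hi1, ⟨hi2, hi4⟩, hi3⟩ := hi
      have hg : Nat.Coprime (pt2 e f i j).1.natAbs (m * B) := hi4
      have hgB : Int.gcd (pt2 e f i j).1 B = 1 := Nat.Coprime.coprime_mul_left_right hg
      have hgm : Nat.Coprime (pt2 e f i j).1.natAbs m := Nat.Coprime.coprime_mul_right_right hg
      obtain ⟨hd1, hd2⟩ := Mgd_dvd B l e f hBs i j hgB
      rw [Finset.mem_biUnion]
      refine ⟨Int.gcd (pt2 e f i j).1 (pt2 e f i j).2, ?_, ?_⟩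
      · rw [Finset.mem_filter, Nat.mem_divisors]
        refine ⟨⟨Int.natCast_dvd.mp hd2, by omega⟩, hi3, ?_⟩
        exact Nat.Coprime.coprime_dvd_left (Int.natCast_dvd.mp (Int.gcd_dvd_left ..)) hgm
      · rw [Finset.mem_filter]
        exact ⟨hi1, hd1, hi2⟩
    have hcard := (Finset.card_le_card hsub).trans Finset.card_biUnion_le
    have hcardr : ((#((Ioc (a j) (b j)).filter (fun i => (Dm m l e f i j ∧
        Int.gcd (pt2 e f i j).1 (m * B : ℕ) = 1) ∧ t0 < Int.gcd (pt2 e f i j).1 (pt2 e f i j).2)) : ℕ) : ℝ) ≤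
        ∑ t ∈ j.natAbs.divisors.filter (fun t => t0 < t ∧ t.Coprime m),
          ((#((Ioc (a j) (b j)).filter (fun i : ℤ => (t : ℤ) ∣ i ∧ Dm m l e f i j)) : ℕ) : ℝ) := by
      exact_mod_cast hcard
    refine hcardr.trans ?_
    have hterm : ∀ t ∈ j.natAbs.divisors.filter (fun t => t0 < t ∧ t.Coprime m),
        ((#((Ioc (a j) (b j)).filter (fun i : ℤ => (t : ℤ) ∣ i ∧ Dm m l e f i j)) : ℕ) : ℝ) ≤ c := by
      intro t ht
      rw [Finset.mem_filter] at ht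
      have ht1 : 1 ≤ t := by omega
      have htt : (t0 : ℝ) ≤ (t : ℝ) := by exact_mod_cast ht.2.1.le
      have hcop : Nat.Coprime t (m / m1) := Nat.Coprime.coprime_dvd_right (Nat.div_dvd_of_dvd hm1d) ht.2.2
      refine (Mgd_cong (a j) (b j) (t * (m / m1)) (Nat.mul_pos ht1 hm2) (hlen j).1 _ (Finset.filter_subset _ _)
        ?_).trans ?_
      · intro i hi i' hi'
        rw [Finset.mem_filter] at hi hi'
        have e1 : (t : ℤ) ∣ i - i' := dvd_sub hi.2.1 hi'.2.1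
        have e2 : ((m / m1 : ℕ) : ℤ) ∣ i - i' := hDi i i' j hi.2.2 hi'.2.2
        rw [Nat.cast_mul]
        exact IsCoprime.mul_dvd (Nat.isCoprime_iff_coprime.2 hcop) e1 e2
      · rw [hc]
        have h2 : ((b j - a j : ℤ) : ℝ) ≤ 2 * ((N : ℝ) / (nm e : ℝ)) := by linarith [(hlen j).2]
        have h3 : ((b j - a j : ℤ) : ℝ) / ((t * (m / m1) : ℕ) : ℝ) ≤
            2 * ((N : ℝ) / (nm e : ℝ)) / ((t0 : ℝ) * ((m : ℝ) / m1)) := by
          rw [Nat.cast_mul, hm2r]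
          exact div_le_div₀ (by positivity) h2 (by positivity) (mul_le_mul_of_nonneg_right htt (by positivity))
        have h4 : 2 * ((N : ℝ) / (nm e : ℝ)) / ((t0 : ℝ) * ((m : ℝ) / m1)) =
            2 * (N : ℝ) * m1 / ((nm e : ℝ) * m * t0) := by
          field_simp
        linarith
    calc ∑ t ∈ j.natAbs.divisors.filter (fun t => t0 < t ∧ t.Coprime m),
          ((#((Ioc (a j) (b j)).filter (fun i : ℤ => (t : ℤ) ∣ i ∧ Dm m l e f i j)) : ℕ) : ℝ)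
        ≤ #(j.natAbs.divisors.filter (fun t => t0 < t ∧ t.Coprime m)) • c :=
          Finset.sum_le_card_nsmul _ _ _ hterm
      _ = (#(j.natAbs.divisors.filter (fun t => t0 < t ∧ t.Coprime m)) : ℝ) * c := by rw [nsmul_eq_mul]
      _ ≤ T * c := by
          apply mul_le_mul_of_nonneg_right _ hc0
          have h2 : (#(j.natAbs.divisors.filter (fun t => t0 < t ∧ t.Coprime m)) : ℝ) ≤
              (#(j.natAbs.divisors) : ℝ) := by
            exact_mod_cast Finset.card_le_card (Finset.filter_subset _ _)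
          exact h2.trans (hT.2.2 _ hjn hjX)
  -- the lines j with m1 ∤ j have no points
  have hred : ∑ j ∈ (Icc (-(JJ B N e)) (JJ B N e)).filter (fun j => j ≠ 0),
      ((#((Ioc (a j) (b j)).filter (fun i => (Dm m l e f i j ∧ Int.gcd (pt2 e f i j).1 (m * B : ℕ) = 1) ∧
        t0 < Int.gcd (pt2 e f i j).1 (pt2 e f i j).2)) : ℕ) : ℝ) =
      ∑ j ∈ (Icc (-(JJ B N e)) (JJ B N e)).filter (fun j => j ≠ 0 ∧ (m1 : ℤ) ∣ j),
      ((#((Ioc (a j) (b j)).filter (fun i => (Dm m l e f i j ∧ Int.gcd (pt2 e f i j).1 (m * B : ℕ) = 1) ∧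
        t0 < Int.gcd (pt2 e f i j).1 (pt2 e f i j).2)) : ℕ) : ℝ) := by
    symm
    refine Finset.sum_subset ?_ ?_
    · intro j hj
      rw [Finset.mem_filter] at hj ⊢
      exact ⟨hj.1, hj.2.1⟩
    · intro j hj hj'
      rw [Finset.mem_filter] at hj hj'
      have hnd : ¬ (m1 : ℤ) ∣ j := fun hd => hj' ⟨hj.1, hj.2, hd⟩
      have hemp : (Ioc (a j) (b j)).filter (fun i => (Dm m l e f i j ∧
          Int.gcd (pt2 e f i j).1 (m * B : ℕ) = 1) ∧
          t0 < Int.gcd (pt2 e f i j).1 (pt2 e f i j).2) = ∅ := by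
        rw [Finset.filter_eq_empty_iff]
        intro i _ hi
        exact hnd (hDj i j hi.1.1)
      rw [hemp, Finset.card_empty, Nat.cast_zero]
  rw [hred]
  have hsum := Finset.sum_le_card_nsmul _ _ _ hline
  rw [nsmul_eq_mul] at hsum
  refine hsum.trans ?_
  have h4 : (0 : ℝ) ≤ ((JJ B N e : ℤ) : ℝ) := by exact_mod_cast hJ0
  calc ((#((Icc (-(JJ B N e)) (JJ B N e)).filter (fun j => j ≠ 0 ∧ (m1 : ℤ) ∣ j)) : ℕ) : ℝ) * (T * c)
      ≤ (2 * ((JJ B N e : ℤ) : ℝ) / m1) * (T * c) :=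
        mul_le_mul_of_nonneg_right hcnt' (by positivity)
    _ ≤ (2 * (4 * (N : ℝ) * (nm e : ℝ) / (B : ℝ)) / m1) * (T * c) := by
        apply mul_le_mul_of_nonneg_right _ (by positivity)
        apply div_le_div_of_nonneg_right _ hm1r.le
        linarith
    _ = T * (16 * (N : ℝ) ^ 2 / ((m : ℝ) * B * t0) + 8 * (N : ℝ) * (nm e : ℝ) / (B : ℝ) / m1) := by
        rw [hc]
        field_simp
        ring
    _ ≤ T * (16 * (N : ℝ) ^ 2 / ((m : ℝ) * B * t0) + 8 * (N : ℝ) * (nm e : ℝ) / (B : ℝ)) := by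
        apply mul_le_mul_of_nonneg_left _ hT0
        have h5 : 8 * (N : ℝ) * (nm e : ℝ) / (B : ℝ) / m1 ≤ 8 * (N : ℝ) * (nm e : ℝ) / (B : ℝ) :=
          div_le_self (by positivity) hm11
        linarith

end Pool.Agent.Lib.NM
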