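import Pool.Agent.Lib.NM.SpecL
import Pool.Agent.Lib.SLN.PhN

/-!
MP_00e23e_nt, project NLM (all classes, no lock, an arbitrary divisor m of the moduli), module PbM: the pair bound PbMStmt from the
phase identity (PhNStmt) and the lattice theorem (MfiStmt).
-/

set_option autoImplicit false

namespace Pool.Agent.Lib.NM

open Finset Pool.Agent.Lib.EH3 Pool.Agent.Lib.TB Pool.Agent.Results.MP_00e23e_nt Pool.Agent.Lib.MI
open Pool.Agent.Lib.SLN (An Wn PS SuP PhNStmt)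

/-- coprime numbers have no common prime -/
private lemma PbM_one {p x y : ℕ} (hp : p.Prime) (hc : x.Coprime y) (hx : p ∣ x) : ¬ p ∣ y := by
  intro hy
  have h5 := Nat.dvd_gcd hx hy
  rw [hc] at h5
  exact hp.one_lt.ne' (Nat.dvd_one.1 h5)

private lemma PbM_cop {x y : ℕ} (h : ∀ p : ℕ, p.Prime → p ∣ x → ¬ p ∣ y) : x.Coprime y :=
  Nat.coprime_of_dvd h

/-- the primes of A/gcd -/
private lemma PbM_div {A A' p : ℕ} (hA : Squarefree A) (hp : p.Prime) (h : p ∣ A / Nat.gcd A A') :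
    p ∣ A ∧ ¬ p ∣ A' := by
  have e : Nat.gcd A A' * (A / Nat.gcd A A') = A := Nat.mul_div_cancel' (Nat.gcd_dvd_left _ _)
  have hA2 : p ∣ A := h.trans (Dvd.intro_left _ e)
  refine ⟨hA2, fun h2 => ?_⟩
  have h3 := (Nat.squarefree_mul_iff.1 (e.symm ▸ hA : Squarefree (Nat.gcd A A' * (A / Nat.gcd A A')))).1
  exact PbM_one hp h3 (Nat.dvd_gcd hA2 h2) h

private lemma PbM_div' {A A' p : ℕ} (hp : p.Prime) (h1 : p ∣ A) (h2 : ¬ p ∣ A') : p ∣ A / Nat.gcd A A' := by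
  have e : Nat.gcd A A' * (A / Nat.gcd A A') = A := Nat.mul_div_cancel' (Nat.gcd_dvd_left _ _)
  rw [← e] at h1
  exact ((Nat.Prime.dvd_mul hp).1 h1).resolve_left (fun h3 => h2 (h3.trans (Nat.gcd_dvd_right _ _)))

/-- the primes of W(A, A') -/
private lemma PbM_wn {A A' p : ℕ} (hA : Squarefree A) (hA' : Squarefree A') (hp : p.Prime) (h : p ∣ Wn A A') :
    (p ∣ A ∧ ¬ p ∣ A') ∨ (p ∣ A' ∧ ¬ p ∣ A) := by
  unfold Wn at h
  rcases (Nat.Prime.dvd_mul hp).1 h with h1 | h1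
  · exact Or.inl (PbM_div hA hp h1)
  · rw [Nat.gcd_comm] at h1
    exact Or.inr (PbM_div hA' hp h1)

private lemma PbM_wnsq {A A' : ℕ} (hA : Squarefree A) (hA' : Squarefree A') : Squarefree (Wn A A') := by
  unfold Wn
  have hd : 0 < Nat.gcd A A' := Nat.gcd_pos_of_pos_left _ (Nat.pos_of_ne_zero hA.ne_zero)
  rw [Nat.squarefree_mul (Nat.coprime_div_gcd_div_gcd hd)]
  exact ⟨hA.squarefree_of_dvd (Nat.div_dvd_of_dvd (Nat.gcd_dvd_left _ _)),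
    hA'.squarefree_of_dvd (Nat.div_dvd_of_dvd (Nat.gcd_dvd_right _ _))⟩

/-- removing the small primes and the primes of h h' -/
private lemma PbM_bad {n m F : ℕ} {good : ℕ → Prop} [DecidablePred good] (hn : Squarefree n) (hm : m ≠ 0) (hF : F ≠ 0)
    (hb : ∀ p : ℕ, p.Prime → ¬ good p → p ∣ F * m) :
    n ≤ F * m * ∏ p ∈ n.primeFactors.filter good, p := by
  have e : (∏ p ∈ n.primeFactors.filter good, p) * (∏ p ∈ n.primeFactors.filter (fun p => ¬ good p), p) = n := by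
    rw [Finset.prod_filter_mul_prod_filter_not]
    exact Nat.prod_primeFactors_of_squarefree hn
  have h1 : (∏ p ∈ n.primeFactors.filter (fun p => ¬ good p), p) ∣ F * m := by
    refine Finset.prod_primes_dvd _ (fun p hp => ?_) (fun p hp => ?_)
    · exact (Nat.prime_of_mem_primeFactors (Finset.mem_filter.1 hp).1).prime
    · exact hb p (Nat.prime_of_mem_primeFactors (Finset.mem_filter.1 hp).1) (Finset.mem_filter.1 hp).2
  have h2 := Nat.le_of_dvd (Nat.pos_of_ne_zero (mul_ne_zero hF hm)) h1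
  calc n = (∏ p ∈ n.primeFactors.filter (fun p => ¬ good p), p) * (∏ p ∈ n.primeFactors.filter good, p) := by
        rw [mul_comm]
        exact e.symm
    _ ≤ _ := Nat.mul_le_mul_right _ h2

/-- the good primes of the three types -/
private lemma PbM_types {B w1 w2 ρ g q q' u1 u2 u1' u2' F k : ℕ} {c1 c2 h h' : ℤ} (hF : F = (2 ^ k).factorial)
    (hh : h ≠ 0) (hh' : h' ≠ 0)
    (hB : B = ρ * (g * Nat.lcm q q')) (hw1 : B * w1 = Nat.lcm (ρ * q * (g * u1)) (ρ * q' * (g * u1')))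
    (hw2 : B * w2 = Nat.lcm (ρ * q * (g * u2)) (ρ * q' * (g * u2'))) (sq1 : Squarefree (B * w1))
    (sq2 : Squarefree (B * w2)) (dw1 : w1 ∣ Nat.lcm u1 u1') (dw2 : w2 ∣ Nat.lcm u2 u2')
    (cc : u2.Coprime (ρ * q * (g * u1))) (cc' : u2'.Coprime (ρ * q' * (g * u1')))
    (sep : ∀ p : ℕ, p.Prime → p ∣ q * q' → ¬ p ∣ u1 * u2 ∧ ¬ p ∣ u1' * u2')
    (p1 : ∀ p : ℕ, p.Prime → (p : ℤ) ∣ c1 → p ∣ q * u1 → ¬ p ∣ q' * (u1' * u2') → (p : ℤ) ∣ h)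
    (p2 : ∀ p : ℕ, p.Prime → (p : ℤ) ∣ c1 → p ∣ q' * u1' → ¬ p ∣ q * (u1 * u2) → (p : ℤ) ∣ h')
    (p3 : ∀ p : ℕ, p.Prime → (p : ℤ) ∣ c2 → p ∣ u2 → ¬ p ∣ q' * (u1' * u2') → (p : ℤ) ∣ h)
    (p4 : ∀ p : ℕ, p.Prime → (p : ℤ) ∣ c2 → p ∣ u2' → ¬ p ∣ q * (u1 * u2) → (p : ℤ) ∣ h') :
    ∃ GQ G1 G2 : ℕ, GQ ∣ g * Nat.lcm q q' ∧ G1 ∣ w1 ∧ G2 ∣ w2 ∧ G1.Coprime w2 ∧ G2.Coprime w1 ∧
      (∀ p : ℕ, p.Prime → p ∣ GQ * G1 → 2 ^ k < p ∧ ¬ (p : ℤ) ∣ c1) ∧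
      (∀ p : ℕ, p.Prime → p ∣ G2 → 2 ^ k < p ∧ ¬ (p : ℤ) ∣ c2) ∧ 1 ≤ GQ ∧
      Wn (q * (u1 * u2)) (q' * (u1' * u2')) ≤ F * (h.natAbs * h'.natAbs) * (GQ * G1 * G2) ∧
      q / Nat.gcd q q' * (q' / Nat.gcd q q') ≤ F * (h.natAbs * h'.natAbs) * GQ := by
  classical
  -- squarefreeness
  have dl1 : ρ * q * (g * u1) ∣ B * w1 := hw1 ▸ Nat.dvd_lcm_left _ _
  have dl1' : ρ * q' * (g * u1') ∣ B * w1 := hw1 ▸ Nat.dvd_lcm_right _ _
  have dl2 : ρ * q * (g * u2) ∣ B * w2 := hw2 ▸ Nat.dvd_lcm_left _ _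
  have dl2' : ρ * q' * (g * u2') ∣ B * w2 := hw2 ▸ Nat.dvd_lcm_right _ _
  have sA : Squarefree (q * (u1 * u2)) := by
    have e : q * (u1 * u2) = (q * u1) * u2 := by ring
    have h1 : (q * u1).Coprime u2 := by
      refine Nat.Coprime.coprime_dvd_left ?_ cc.symm
      exact ⟨ρ * g, by ring⟩
    rw [e, Nat.squarefree_mul h1]
    refine ⟨sq1.squarefree_of_dvd (Dvd.dvd.trans ⟨ρ * g, by ring⟩ dl1),
      sq2.squarefree_of_dvd (Dvd.dvd.trans ⟨ρ * q * g, by ring⟩ dl2)⟩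
  have sA' : Squarefree (q' * (u1' * u2')) := by
    have e : q' * (u1' * u2') = (q' * u1') * u2' := by ring
    have h1 : (q' * u1').Coprime u2' := by
      refine Nat.Coprime.coprime_dvd_left ?_ cc'.symm
      exact ⟨ρ * g, by ring⟩
    rw [e, Nat.squarefree_mul h1]
    refine ⟨sq1.squarefree_of_dvd (Dvd.dvd.trans ⟨ρ * g, by ring⟩ dl1'),
      sq2.squarefree_of_dvd (Dvd.dvd.trans ⟨ρ * q' * g, by ring⟩ dl2')⟩
  have sq : Squarefree q := sA.squarefree_of_dvd (dvd_mul_right _ _)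
  have sq' : Squarefree q' := sA'.squarefree_of_dvd (dvd_mul_right _ _)
  set A := q * (u1 * u2) with hA
  set A' := q' * (u1' * u2') with hA'
  have sW := PbM_wnsq sA sA'
  let good : ℕ → Prop := fun p => 2 ^ k < p ∧ ¬ (p : ℤ) ∣ h ∧ ¬ (p : ℤ) ∣ h'
  set S := (Wn A A').primeFactors.filter good with hS
  have hFm : ∀ p : ℕ, p.Prime → ¬ good p → p ∣ F * (h.natAbs * h'.natAbs) := by
    intro p hp hg
    have hg' : ¬ (2 ^ k < p ∧ ¬ (p : ℤ) ∣ h ∧ ¬ (p : ℤ) ∣ h') := hg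
    by_cases c1 : 2 ^ k < p
    · by_cases c2 : (p : ℤ) ∣ h
      · exact dvd_mul_of_dvd_right (dvd_mul_of_dvd_left (Int.natCast_dvd.1 c2) _) _
      · by_cases c3 : (p : ℤ) ∣ h'
        · exact dvd_mul_of_dvd_right (dvd_mul_of_dvd_right (Int.natCast_dvd.1 c3) _) _
        · exact absurd ⟨c1, c2, c3⟩ hg'
    · refine dvd_mul_of_dvd_left ?_ _
      rw [hF]
      exact Nat.dvd_factorial hp.pos (not_lt.1 c1)
  have hm : h.natAbs * h'.natAbs ≠ 0 := mul_ne_zero (Int.natAbs_ne_zero.2 hh) (Int.natAbs_ne_zero.2 hh')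
  have hF0 : F ≠ 0 := by
    rw [hF]
    exact Nat.factorial_ne_zero _
  have memS : ∀ p, p ∈ S → p.Prime ∧ p ∣ Wn A A' ∧ 2 ^ k < p ∧ ¬ (p : ℤ) ∣ h ∧ ¬ (p : ℤ) ∣ h' := by
    intro p hp
    obtain ⟨h1, h2⟩ := Finset.mem_filter.1 hp
    exact ⟨Nat.prime_of_mem_primeFactors h1, Nat.dvd_of_mem_primeFactors h1, h2⟩
  -- primes dividing a product of primes
  have hmem : ∀ (U : Finset ℕ) (p : ℕ), (∀ r ∈ U, r.Prime) → p.Prime → p ∣ ∏ r ∈ U, r → p ∈ U := by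
    intro U p hU hp hd
    obtain ⟨r, hr, hpr⟩ := (hp.prime.dvd_finsetProd_iff _).1 hd
    rw [(Nat.prime_dvd_prime_iff_eq hp (hU r hr)).1 hpr]
    exact hr
  set SQ := S.filter (fun p => p ∣ q * q') with hSQ
  set SN := S.filter (fun p => ¬ p ∣ q * q') with hSN
  set S1 := SN.filter (fun p => p ∣ w1) with hS1
  set S2 := SN.filter (fun p => ¬ p ∣ w1) with hS2
  have subQ : ∀ r ∈ SQ, r.Prime := fun r hr => (memS r (Finset.mem_filter.1 hr).1).1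
  have sub1 : ∀ r ∈ S1, r.Prime := fun r hr => (memS r (Finset.mem_filter.1 (Finset.mem_filter.1 hr).1).1).1
  have sub2 : ∀ r ∈ S2, r.Prime := fun r hr => (memS r (Finset.mem_filter.1 (Finset.mem_filter.1 hr).1).1).1
  have eprod : (∏ p ∈ SQ, p) * (∏ p ∈ S1, p) * (∏ p ∈ S2, p) = ∏ p ∈ S, p := by
    rw [mul_assoc, Finset.prod_filter_mul_prod_filter_not, Finset.prod_filter_mul_prod_filter_not]
  -- a prime dividing s1/g and not q q' divides w1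
  have toB : ∀ p : ℕ, p.Prime → ¬ p ∣ q * q' → ¬ p ∣ ρ * g → ¬ p ∣ B := by
    intro p hp h1 h2 h3
    rw [hB] at h3
    rcases (Nat.Prime.dvd_mul hp).1 h3 with h4 | h4
    · exact h2 (dvd_mul_of_dvd_left h4 _)
    · rcases (Nat.Prime.dvd_mul hp).1 h4 with h5 | h5
      · exact h2 (dvd_mul_of_dvd_right h5 _)
      · exact h1 (h5.trans (SL.pha_lcm_mul q q'))
  have rg : ∀ {p q0 u : ℕ}, p.Prime → Squarefree (ρ * q0 * (g * u)) → p ∣ u → ¬ p ∣ ρ * g := by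
    intro p q0 u hp hs hpu
    have e : ρ * q0 * (g * u) = (ρ * g) * (q0 * u) := by ring
    rw [e] at hs
    exact PbM_one hp (Nat.squarefree_mul_iff.1 hs).1.symm (dvd_mul_of_dvd_right hpu _)
  have inw : ∀ {p w M : ℕ}, p.Prime → ¬ p ∣ B → M ∣ B * w → p ∣ M → p ∣ w := by
    intro p w M hp h1 h2 h3
    exact ((Nat.Prime.dvd_mul hp).1 (h3.trans h2)).resolve_left h1
  have to1 : ∀ p : ℕ, p.Prime → ¬ p ∣ q * q' → p ∣ u1 → p ∣ w1 := fun p hp h1 h2 =>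
    inw hp (toB p hp h1 (rg hp (sq1.squarefree_of_dvd dl1) h2)) dl1 (h2.trans ⟨ρ * q * g, by ring⟩)
  have to1' : ∀ p : ℕ, p.Prime → ¬ p ∣ q * q' → p ∣ u1' → p ∣ w1 := fun p hp h1 h2 =>
    inw hp (toB p hp h1 (rg hp (sq1.squarefree_of_dvd dl1') h2)) dl1' (h2.trans ⟨ρ * q' * g, by ring⟩)
  have to2 : ∀ p : ℕ, p.Prime → ¬ p ∣ q * q' → p ∣ u2 → p ∣ w2 := fun p hp h1 h2 =>
    inw hp (toB p hp h1 (rg hp (sq2.squarefree_of_dvd dl2) h2)) dl2 (h2.trans ⟨ρ * q * g, by ring⟩)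
  have to2' : ∀ p : ℕ, p.Prime → ¬ p ∣ q * q' → p ∣ u2' → p ∣ w2 := fun p hp h1 h2 =>
    inw hp (toB p hp h1 (rg hp (sq2.squarefree_of_dvd dl2') h2)) dl2' (h2.trans ⟨ρ * q' * g, by ring⟩)
  have lcmd : ∀ {p x y : ℕ}, p.Prime → p ∣ Nat.lcm x y → p ∣ x ∨ p ∣ y := by
    intro p x y hp h1
    exact (Nat.Prime.dvd_mul hp).1 (h1.trans (SL.pha_lcm_mul x y))
  have dA : ∀ {p : ℕ}, p ∣ q → p ∣ A := fun h1 => h1.trans (dvd_mul_right _ _)
  have dA1 : ∀ {p : ℕ}, p ∣ u1 → p ∣ A := fun h1 => h1.trans ⟨q * u2, by rw [hA]; ring⟩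
  have dA2 : ∀ {p : ℕ}, p ∣ u2 → p ∣ A := fun h1 => h1.trans ⟨q * u1, by rw [hA]; ring⟩
  have dA' : ∀ {p : ℕ}, p ∣ q' → p ∣ A' := fun h1 => h1.trans (dvd_mul_right _ _)
  have dA1' : ∀ {p : ℕ}, p ∣ u1' → p ∣ A' := fun h1 => h1.trans ⟨q' * u2', by rw [hA']; ring⟩
  have dA2' : ∀ {p : ℕ}, p ∣ u2' → p ∣ A' := fun h1 => h1.trans ⟨q' * u1', by rw [hA']; ring⟩
  have c1u2 : ∀ {p : ℕ}, p.Prime → p ∣ u1 → ¬ p ∣ u2 := fun hp h1 h2 =>
    PbM_one hp cc h2 (h1.trans ⟨ρ * q * g, by ring⟩)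
  have c1u2' : ∀ {p : ℕ}, p.Prime → p ∣ u1' → ¬ p ∣ u2' := fun hp h1 h2 =>
    PbM_one hp cc' h2 (h1.trans ⟨ρ * q' * g, by ring⟩)
  refine ⟨∏ p ∈ SQ, p, ∏ p ∈ S1, p, ∏ p ∈ S2, p, ?_, ?_, ?_, ?_, ?_, ?_, ?_, ?_, ?_, ?_⟩
  · -- GQ ∣ g lcm
    refine Finset.prod_primes_dvd _ (fun p hp => (subQ p hp).prime) (fun p hp => ?_)
    have h1 := (Finset.mem_filter.1 hp).2
    have hpp := subQ p hp
    have h2 : p ∣ Nat.lcm q q' := by
      rcases (Nat.Prime.dvd_mul hpp).1 h1 with h3 | h3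
      · exact h3.trans (Nat.dvd_lcm_left _ _)
      · exact h3.trans (Nat.dvd_lcm_right _ _)
    exact dvd_mul_of_dvd_right h2 _
  · -- G1 ∣ w1
    exact Finset.prod_primes_dvd _ (fun p hp => (sub1 p hp).prime) (fun p hp => (Finset.mem_filter.1 hp).2)
  · -- G2 ∣ w2
    refine Finset.prod_primes_dvd _ (fun p hp => (sub2 p hp).prime) (fun p hp => ?_)
    have hpp := sub2 p hp
    obtain ⟨h1, h2⟩ := Finset.mem_filter.1 hp
    obtain ⟨h3, h4⟩ := Finset.mem_filter.1 h1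
    obtain ⟨-, h5, -, -, -⟩ := memS p h3
    have hq : ¬ p ∣ q := fun hh0 => h4 (dvd_mul_of_dvd_left hh0 _)
    have hq' : ¬ p ∣ q' := fun hh0 => h4 (dvd_mul_of_dvd_right hh0 _)
    rcases PbM_wn sA sA' hpp h5 with ⟨h6, -⟩ | ⟨h6, -⟩
    · have h7 := ((Nat.Prime.dvd_mul hpp).1 h6).resolve_left hq
      rcases (Nat.Prime.dvd_mul hpp).1 h7 with h8 | h8
      · exact absurd (to1 p hpp h4 h8) h2
      · exact to2 p hpp h4 h8
    · have h7 := ((Nat.Prime.dvd_mul hpp).1 h6).resolve_left hq'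
      rcases (Nat.Prime.dvd_mul hpp).1 h7 with h8 | h8
      · exact absurd (to1' p hpp h4 h8) h2
      · exact to2' p hpp h4 h8
  · -- G1 coprime to w2
    refine PbM_cop fun p hp hpd h2 => ?_
    have hp1 := hmem S1 p sub1 hp hpd
    obtain ⟨h3, h4⟩ := Finset.mem_filter.1 hp1
    obtain ⟨h5, -⟩ := Finset.mem_filter.1 h3
    obtain ⟨-, h6, -, -, -⟩ := memS p h5
    have x1 := lcmd hp (h4.trans dw1)
    have x2 := lcmd hp (h2.trans dw2)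
    rcases PbM_wn sA sA' hp h6 with ⟨-, h7⟩ | ⟨-, h7⟩
    · rcases x1 with x1 | x1
      · rcases x2 with x2 | x2
        · exact c1u2 hp x1 x2
        · exact h7 (dA2' x2)
      · exact h7 (dA1' x1)
    · rcases x1 with x1 | x1
      · exact h7 (dA1 x1)
      · rcases x2 with x2 | x2
        · exact h7 (dA2 x2)
        · exact c1u2' hp x1 x2
  · -- G2 coprime to w1
    refine PbM_cop fun p hp hpd h2 => ?_
    have hp1 := hmem S2 p sub2 hp hpd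
    exact (Finset.mem_filter.1 hp1).2 h2
  · -- primes of GQ G1
    intro p hp hpd
    rcases (Nat.Prime.dvd_mul hp).1 hpd with h1 | h1
    · have hp1 := hmem SQ p subQ hp h1
      obtain ⟨h3, h4⟩ := Finset.mem_filter.1 hp1
      obtain ⟨-, h6, h7, h8, h9⟩ := memS p h3
      refine ⟨h7, fun hc => ?_⟩
      rcases PbM_wn sA sA' hp h6 with ⟨-, h10⟩ | ⟨-, h10⟩
      · have hq : p ∣ q := ((Nat.Prime.dvd_mul hp).1 h4).resolve_right (fun hh0 => h10 (dA' hh0))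
        exact h8 (p1 p hp hc (dvd_mul_of_dvd_left hq _) h10)
      · have hq : p ∣ q' := ((Nat.Prime.dvd_mul hp).1 h4).resolve_left (fun hh0 => h10 (dA hh0))
        exact h9 (p2 p hp hc (dvd_mul_of_dvd_left hq _) h10)
    · have hp1 := hmem S1 p sub1 hp h1
      obtain ⟨h3, h4⟩ := Finset.mem_filter.1 hp1
      obtain ⟨h5, -⟩ := Finset.mem_filter.1 h3
      obtain ⟨-, h6, h7, h8, h9⟩ := memS p h5
      refine ⟨h7, fun hc => ?_⟩
      have x1 := lcmd hp (h4.trans dw1)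
      rcases PbM_wn sA sA' hp h6 with ⟨-, h10⟩ | ⟨-, h10⟩
      · have hq : p ∣ u1 := x1.resolve_right (fun hh0 => h10 (dA1' hh0))
        exact h8 (p1 p hp hc (dvd_mul_of_dvd_right hq _) h10)
      · have hq : p ∣ u1' := x1.resolve_left (fun hh0 => h10 (dA1 hh0))
        exact h9 (p2 p hp hc (dvd_mul_of_dvd_right hq _) h10)
  · -- primes of G2
    intro p hp hpd
    have hp1 := hmem S2 p sub2 hp hpd
    obtain ⟨h3, h2⟩ := Finset.mem_filter.1 hp1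
    obtain ⟨h5, h4⟩ := Finset.mem_filter.1 h3
    obtain ⟨-, h6, h7, h8, h9⟩ := memS p h5
    have hq : ¬ p ∣ q := fun hh0 => h4 (dvd_mul_of_dvd_left hh0 _)
    have hq' : ¬ p ∣ q' := fun hh0 => h4 (dvd_mul_of_dvd_right hh0 _)
    refine ⟨h7, fun hc => ?_⟩
    rcases PbM_wn sA sA' hp h6 with ⟨h11, h10⟩ | ⟨h11, h10⟩
    · have h12 := ((Nat.Prime.dvd_mul hp).1 h11).resolve_left hq
      have h13 := ((Nat.Prime.dvd_mul hp).1 h12).resolve_left (fun hh0 => h2 (to1 p hp h4 hh0))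
      exact h8 (p3 p hp hc h13 h10)
    · have h12 := ((Nat.Prime.dvd_mul hp).1 h11).resolve_left hq'
      have h13 := ((Nat.Prime.dvd_mul hp).1 h12).resolve_left (fun hh0 => h2 (to1' p hp h4 hh0))
      exact h9 (p4 p hp hc h13 h10)
  · exact Finset.one_le_prod' fun p hp => (subQ p hp).one_lt.le
  · rw [eprod]
    exact PbM_bad sW hm hF0 hFm
  · have hd : 0 < Nat.gcd q q' := Nat.gcd_pos_of_pos_left _ (Nat.pos_of_ne_zero sq.ne_zero)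
    have sE : Squarefree (q / Nat.gcd q q' * (q' / Nat.gcd q q')) := by
      rw [Nat.squarefree_mul (Nat.coprime_div_gcd_div_gcd hd)]
      exact ⟨sq.squarefree_of_dvd (Nat.div_dvd_of_dvd (Nat.gcd_dvd_left _ _)),
        sq'.squarefree_of_dvd (Nat.div_dvd_of_dvd (Nat.gcd_dvd_right _ _))⟩
    refine (PbM_bad sE hm hF0 hFm).trans (Nat.mul_le_mul_left _ ?_)
    refine Finset.prod_le_prod_of_subset_of_one_le' ?_ fun p hp _ => (subQ p hp).one_lt.le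
    intro p hp
    obtain ⟨h1, h2⟩ := Finset.mem_filter.1 hp
    have hpp := Nat.prime_of_mem_primeFactors h1
    have h3 := Nat.dvd_of_mem_primeFactors h1
    have h4 : p ∣ q * q' ∧ p ∣ Wn A A' := by
      rcases (Nat.Prime.dvd_mul hpp).1 h3 with h5 | h5
      · obtain ⟨h6, h7⟩ := PbM_div sq hpp h5
        have h8 : p ∣ q * q' := dvd_mul_of_dvd_left h6 _
        obtain ⟨-, h9⟩ := sep p hpp h8
        have h10 : ¬ p ∣ A' := fun hh0 => ((Nat.Prime.dvd_mul hpp).1 hh0).elim h7 h9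
        exact ⟨h8, dvd_mul_of_dvd_left (PbM_div' hpp (dA h6) h10) _⟩
      · rw [Nat.gcd_comm] at h5
        obtain ⟨h6, h7⟩ := PbM_div sq' hpp h5
        have h8 : p ∣ q * q' := dvd_mul_of_dvd_right h6 _
        obtain ⟨h9, -⟩ := sep p hpp h8
        have h10 : ¬ p ∣ A := fun hh0 => ((Nat.Prime.dvd_mul hpp).1 hh0).elim h7 h9
        refine ⟨h8, dvd_mul_of_dvd_right ?_ _⟩
        have h11 := PbM_div' hpp (dA' h6) h10
        rwa [Nat.gcd_comm] at h11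
    refine Finset.mem_filter.2 ⟨Finset.mem_filter.2 ⟨?_, h2⟩, h4.1⟩
    exact Nat.mem_primeFactors.2 ⟨hpp, h4.2, sW.ne_zero⟩

/-- sizes of B -/
private lemma PbM_size {B ρ g q q' R R0 : ℕ} (hg : 1 ≤ g) (hB : B = ρ * (g * Nat.lcm q q')) (h1 : R0 < ρ)
    (h2 : ρ ≤ 2 * R0) (h3 : R < ρ * q) (h4 : ρ * q ≤ 2 * R) (h3' : R < ρ * q') (h4' : ρ * q' ≤ 2 * R) :
    B * R0 ≤ 4 * R ^ 2 * g ∧ g * R ^ 2 ≤ 2 * R0 * Nat.gcd q q' * B ∧ 1 ≤ Nat.gcd q q' ∧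
      B ^ 2 ≤ 4 * R ^ 2 * g ^ 2 * (q / Nat.gcd q q' * (q' / Nat.gcd q q')) ∧ R * g < B := by
  have q0 : 0 < q := by
    rcases Nat.eq_zero_or_pos q with h0 | h0
    · rw [h0, mul_zero] at h3
      omega
    · exact h0
  have q0' : 0 < q' := by
    rcases Nat.eq_zero_or_pos q' with h0 | h0
    · rw [h0, mul_zero] at h3'
      omega
    · exact h0
  have hd : 0 < Nat.gcd q q' := Nat.gcd_pos_of_pos_left _ q0
  have hgl : Nat.gcd q q' * Nat.lcm q q' = q * q' := Nat.gcd_mul_lcm q q'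
  have e1 : Nat.gcd q q' * (q / Nat.gcd q q') = q := Nat.mul_div_cancel' (Nat.gcd_dvd_left _ _)
  have e2 : Nat.gcd q q' * (q' / Nat.gcd q q') = q' := Nat.mul_div_cancel' (Nat.gcd_dvd_right _ _)
  have hl : Nat.lcm q q' ≤ q * q' := Nat.le_of_dvd (Nat.mul_pos q0 q0') (SL.pha_lcm_mul q q')
  have hlq : q ≤ Nat.lcm q q' := Nat.le_of_dvd (Nat.lcm_pos q0 q0') (Nat.dvd_lcm_left q q')
  refine ⟨?_, ?_, hd, ?_, ?_⟩
  · calc B * R0 ≤ B * ρ := Nat.mul_le_mul_left _ h1.le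
      _ = ρ * (g * Nat.lcm q q') * ρ := by rw [hB]
      _ ≤ ρ * (g * (q * q')) * ρ := Nat.mul_le_mul_right _ (Nat.mul_le_mul_left _ (Nat.mul_le_mul_left _ hl))
      _ = (ρ * q) * (ρ * q') * g := by ring
      _ ≤ (2 * R) * (2 * R) * g := Nat.mul_le_mul_right _ (Nat.mul_le_mul h4 h4')
      _ = 4 * R ^ 2 * g := by ring
  · calc g * R ^ 2 = R * R * g := by ring
      _ ≤ (ρ * q) * (ρ * q') * g := Nat.mul_le_mul_right _ (Nat.mul_le_mul h3.le h3'.le)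
      _ = ρ * ρ * g * (q * q') := by ring
      _ = ρ * ρ * g * (Nat.gcd q q' * Nat.lcm q q') := by rw [hgl]
      _ = ρ * Nat.gcd q q' * (ρ * (g * Nat.lcm q q')) := by ring
      _ = ρ * Nat.gcd q q' * B := by rw [hB]
      _ ≤ 2 * R0 * Nat.gcd q q' * B := Nat.mul_le_mul_right _ (Nat.mul_le_mul_right _ h2)
  · set d := Nat.gcd q q' with hdd
    set u := q / d with hu
    set u' := q' / d with hu'
    have e3 : Nat.lcm q q' = d * (u * u') := by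
      have h5 : d * Nat.lcm q q' = d * (d * (u * u')) := by
        rw [hgl]
        calc q * q' = (d * u) * (d * u') := by rw [e1, e2]
          _ = d * (d * (u * u')) := by ring
      exact Nat.eq_of_mul_eq_mul_left hd h5
    calc B ^ 2 = (ρ * (g * (d * (u * u')))) ^ 2 := by rw [hB, e3]
      _ = (ρ * (d * u)) * (ρ * (d * u')) * g ^ 2 * (u * u') := by ring
      _ = (ρ * q) * (ρ * q') * g ^ 2 * (u * u') := by rw [e1, e2]
      _ ≤ (2 * R) * (2 * R) * g ^ 2 * (u * u') := by gcongr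
      _ = 4 * R ^ 2 * g ^ 2 * (u * u') := by ring
  · calc R * g < ρ * q * g := Nat.mul_lt_mul_of_pos_right h3 hg
      _ = ρ * (g * q) := by ring
      _ ≤ ρ * (g * Nat.lcm q q') := Nat.mul_le_mul_left _ (Nat.mul_le_mul_left _ hlq)
      _ = B := hB.symm

/-- N^2/B -/
private lemma PbM_NB {B g R R0 N d : ℕ} (hR : 1 ≤ R) (hB : 1 ≤ B) (hg : 1 ≤ g)
    (h : g * R ^ 2 ≤ 2 * R0 * d * B) :
    (N : ℝ) ^ 2 / B ≤ 2 * ((N : ℝ) ^ 2 * R0 / (g * (R : ℝ) ^ 2)) * d := by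
  have hR' : (0 : ℝ) < R := by exact_mod_cast hR
  have hg' : (0 : ℝ) < g := by exact_mod_cast hg
  have hB' : (0 : ℝ) < B := by exact_mod_cast hB
  have h' : (g : ℝ) * (R : ℝ) ^ 2 ≤ 2 * R0 * d * B := by exact_mod_cast h
  rw [div_le_iff₀ hB']
  have e : 2 * ((N : ℝ) ^ 2 * R0 / (g * (R : ℝ) ^ 2)) * d * B = (N : ℝ) ^ 2 * (2 * R0 * d * B) / (g * (R : ℝ) ^ 2) := by
    ring
  rw [e, le_div_iff₀ (by positivity)]
  exact mul_le_mul_of_nonneg_left h' (by positivity)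

/-- the sum of a pair in the form of the lattice theorems -/
private lemma PbM_eq {a : ℕ → ℕ → ℤ} {g N t0 r s1 s2 r' s1' s2' B w1 w2 : ℕ} {h h' l c1 c2 : ℤ}
    (hF : ∀ n1 n2 : ℕ, SL.Fp a g h r s1 s2 n1 n2 * (starRingEnd ℂ) (SL.Fp a g h' r' s1' s2' n1 n2) =
      if (B : ℤ) ∣ (n1 : ℤ) - l * n2 then t1g c1 (B * w1) n1 * t1g c2 w2 n2 else 0) :
    PS a g N t0 h r s1 s2 h' r' s1' s2' = ∑ n1 ∈ Ioc N (2 * N), ∑ n2 ∈ Ioc N (2 * N),
      (if (B : ℤ) ∣ (n1 : ℤ) - l * n2 ∧ Nat.gcd n1 n2 ≤ t0 then t1g c1 (B * w1) n1 * t1g c2 w2 n2 else 0) := by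
  unfold PS
  refine sum_congr rfl fun n1 _ => sum_congr rfl fun n2 _ => ?_
  rw [hF n1 n2]
  by_cases h1 : Nat.gcd n1 n2 ≤ t0
  · by_cases h2 : (B : ℤ) ∣ (n1 : ℤ) - l * n2
    · rw [if_pos h1, if_pos h2, if_pos ⟨h2, h1⟩]
    · rw [if_pos h1, if_neg h2, if_neg (fun h3 => h2 h3.1)]
  · rw [if_neg h1, if_neg (fun h3 => h1 h3.2)]

private lemma PbM_zero {a : ℕ → ℕ → ℤ} {g N t0 r s1 s2 r' s1' s2' : ℕ} {h h' : ℤ}
    (hF : ∀ n1 n2 : ℕ, SL.Fp a g h r s1 s2 n1 n2 * (starRingEnd ℂ) (SL.Fp a g h' r' s1' s2' n1 n2) = 0) :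
    PS a g N t0 h r s1 s2 h' r' s1' s2' = 0 := by
  unfold PS
  refine sum_eq_zero fun n1 _ => sum_eq_zero fun n2 _ => ?_
  rw [hF n1 n2, ite_self]

/-- the real inequalities of the far pairs -/
private lemma PbM_real {W Z C3 F B N R g H GQ Gd Wp W0 E : ℝ} (hW : 1 ≤ W) (hZ : 1 ≤ Z) (hg : 1 ≤ g) (hH : 1 ≤ H)
    (hF : 1 ≤ F) (hC3 : 1 ≤ C3) (hR : 0 ≤ R) (hRN : R ≤ N) (hGQ : 1 ≤ GQ)
    (hWp : Wp ≤ F * (H * H) * Gd) (hE : E ≤ F * (H * H) * GQ) (hB2 : B ^ 2 ≤ 4 * R ^ 2 * g ^ 2 * E)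
    (hW0 : W0 ≤ Wp) (hc : 4 * C3 * F ^ 2 * (W ^ 2 * Z ^ 2 * g ^ 2 * H ^ 4) ≤ W0) :
    Z ^ 2 ≤ Gd ∧ (W * Z * B) ^ 2 ≤ N ^ 2 * GQ * Gd := by
  have hFH : 0 < F * (H * H) := by positivity
  have k1 : 4 * C3 * F ^ 2 * (W ^ 2 * Z ^ 2 * g ^ 2 * H ^ 4) ≤ F * (H * H) * Gd := by linarith
  have k2 : F * (H * H) * (4 * C3 * F * (W ^ 2 * Z ^ 2 * g ^ 2 * (H * H))) ≤ F * (H * H) * Gd := by
    calc F * (H * H) * (4 * C3 * F * (W ^ 2 * Z ^ 2 * g ^ 2 * (H * H))) =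
        4 * C3 * F ^ 2 * (W ^ 2 * Z ^ 2 * g ^ 2 * H ^ 4) := by ring
      _ ≤ _ := k1
  have k3 : 4 * C3 * F * (W ^ 2 * Z ^ 2 * g ^ 2 * (H * H)) ≤ Gd := le_of_mul_le_mul_left k2 hFH
  have hW2 : 1 ≤ W ^ 2 := one_le_pow₀ hW
  have hg2 : 1 ≤ g ^ 2 := one_le_pow₀ hg
  have hHH : 1 ≤ H * H := one_le_mul_of_one_le_of_one_le hH hH
  have hZ2 : 0 < Z ^ 2 := by positivity
  constructor
  · refine le_trans ?_ k3
    calc Z ^ 2 = 1 * 1 * 1 * (1 * Z ^ 2 * 1 * 1) := by ring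
      _ ≤ 4 * C3 * F * (W ^ 2 * Z ^ 2 * g ^ 2 * (H * H)) := by
          gcongr
          norm_num
  · have k4 : B ^ 2 ≤ 4 * R ^ 2 * g ^ 2 * (F * (H * H) * GQ) :=
      hB2.trans (mul_le_mul_of_nonneg_left hE (by positivity))
    have k5 : 4 * 1 * F * (W ^ 2 * Z ^ 2 * g ^ 2 * (H * H)) ≤ Gd := by
      refine le_trans ?_ k3
      gcongr
    have hR2 : R ^ 2 ≤ N ^ 2 := pow_le_pow_left₀ hR hRN 2
    calc (W * Z * B) ^ 2 = W ^ 2 * Z ^ 2 * B ^ 2 := by ring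
      _ ≤ W ^ 2 * Z ^ 2 * (4 * R ^ 2 * g ^ 2 * (F * (H * H) * GQ)) :=
          mul_le_mul_of_nonneg_left k4 (by positivity)
      _ = R ^ 2 * GQ * (4 * 1 * F * (W ^ 2 * Z ^ 2 * g ^ 2 * (H * H))) := by ring
      _ ≤ N ^ 2 * GQ * Gd := by
          have h0 : 0 ≤ N ^ 2 * GQ := by positivity
          gcongr

private lemma PbM_X {N B R S H g R0 X : ℝ} (hN' : 1 ≤ N) (hR1' : 1 ≤ R) (hS1' : 1 ≤ S) (hH' : 1 ≤ H) (hR0 : 1 ≤ R0)
    (hB : 0 ≤ B) (b1' : B * R0 ≤ 4 * R ^ 2 * g) (h4 : g ≤ 2 * S) (hX : (2 * R * S ^ 2 * N * H) ^ 12 ≤ X) :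
    8 * N * B ≤ X := by
  obtain ⟨u, hu⟩ : ∃ u : ℝ, u = R * S ^ 2 * N * H := ⟨_, rfl⟩
  have hS2 : (1 : ℝ) ≤ S ^ 2 := one_le_pow₀ hS1'
  have hu1 : 1 ≤ u := by
    rw [hu]
    exact one_le_mul_of_one_le_of_one_le (one_le_mul_of_one_le_of_one_le
      (one_le_mul_of_one_le_of_one_le hR1' hS2) hN') hH'
  have hX' : (2 * u) ^ 12 ≤ X := by
    calc (2 * u) ^ 12 = (2 * R * S ^ 2 * N * H) ^ 12 := by rw [hu]; ring
      _ ≤ X := hX
  have h3 : B ≤ 4 * R ^ 2 * g := by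
    calc B = B * 1 := (mul_one _).symm
      _ ≤ B * R0 := by gcongr
      _ ≤ _ := b1'
  have h5 : 8 * N * B ≤ 64 * u ^ 2 := by
    have hSS : S ≤ S ^ 4 := by
      calc S = S ^ 1 := (pow_one _).symm
        _ ≤ S ^ 4 := pow_le_pow_right₀ hS1' (by norm_num)
    have hNN : N ≤ N ^ 2 := by
      calc N = N ^ 1 := (pow_one _).symm
        _ ≤ N ^ 2 := pow_le_pow_right₀ hN' (by norm_num)
    have hHH : 1 ≤ H ^ 2 := one_le_pow₀ hH'
    calc 8 * N * B ≤ 8 * N * (4 * R ^ 2 * g) := by gcongr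
      _ ≤ 8 * N * (4 * R ^ 2 * (2 * S)) := by gcongr
      _ = 64 * (R ^ 2 * S * N * 1) := by ring
      _ ≤ 64 * (R ^ 2 * S ^ 4 * N ^ 2 * H ^ 2) := by gcongr
      _ = 64 * u ^ 2 := by rw [hu]; ring
  have h6 : u ^ 2 ≤ u ^ 12 := pow_le_pow_right₀ hu1 (by norm_num)
  have h7 : (2 * u) ^ 12 = 4096 * u ^ 12 := by ring
  have h8 : 0 ≤ u ^ 12 := by positivity
  linarith

private lemma PbM_case {B w1 w2 R S g R0 K1 K2 : ℝ} (hg : 1 ≤ g) (hB : 0 ≤ B) (hw10 : 0 ≤ w1) (hw20 : 0 ≤ w2)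
    (_hR : 0 ≤ R) (hR0 : 1 ≤ R0) (b1' : B * R0 ≤ 4 * R ^ 2 * g) (hw1' : g ^ 2 * w1 ≤ 4 * S ^ 2)
    (hw2' : g ^ 2 * w2 ≤ 4 * S ^ 2) (hc4 : 64 * R ^ 2 * S ^ 4 ≤ R0 * K1) (hK : K1 ≤ K2) : B * w1 * w2 ≤ K2 := by
  have hg0 : 0 < g := by linarith
  have hg4 : (1 : ℝ) ≤ g ^ 3 := one_le_pow₀ hg
  have h5 : g * (g ^ 3 * (R0 * (B * w1 * w2))) ≤ g * (64 * R ^ 2 * S ^ 4) := by
    calc g * (g ^ 3 * (R0 * (B * w1 * w2))) = (B * R0) * ((g ^ 2 * w1) * (g ^ 2 * w2)) := by ring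
      _ ≤ (4 * R ^ 2 * g) * ((4 * S ^ 2) * (4 * S ^ 2)) := by gcongr
      _ = g * (64 * R ^ 2 * S ^ 4) := by ring
  have h6 := le_of_mul_le_mul_left h5 hg0
  have h7 : (0 : ℝ) ≤ R0 * (B * w1 * w2) := by positivity
  have h8 : R0 * (B * w1 * w2) ≤ g ^ 3 * (R0 * (B * w1 * w2)) := le_mul_of_one_le_left h7 hg4
  have h9 : R0 * (B * w1 * w2) ≤ R0 * K2 := by
    have h10 : R0 * K1 ≤ R0 * K2 := mul_le_mul_of_nonneg_left hK (by linarith)
    linarith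
  exact le_of_mul_le_mul_left h9 (by linarith)

private lemma PbM_end {C3 F2 TA NB E σ d t0 : ℝ} (hC : 0 ≤ C3) (hCF : C3 ≤ C3 * F2) (hT : 0 ≤ TA) (hE : 0 ≤ E)
    (hσ : 0 ≤ σ) (hd : 1 ≤ d) (ht : 0 ≤ t0) (h4 : NB ≤ 2 * E * d) :
    C3 * TA * (NB * σ + t0) ≤ 4 * C3 * F2 * TA * (E * σ + t0) * d := by
  have h8 : NB * σ ≤ 2 * E * d * σ := mul_le_mul_of_nonneg_right h4 hσ
  have h6 : t0 ≤ t0 * d := le_mul_of_one_le_right ht hd
  have h6' : 0 ≤ t0 * d := by positivity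
  have h7 : NB * σ + t0 ≤ 2 * ((E * σ + t0) * d) := by
    have e : 2 * ((E * σ + t0) * d) = 2 * E * d * σ + 2 * (t0 * d) := by ring
    rw [e]
    linarith
  have h9 : 0 ≤ TA * ((E * σ + t0) * d) := by positivity
  calc C3 * TA * (NB * σ + t0) ≤ C3 * TA * (2 * ((E * σ + t0) * d)) :=
        mul_le_mul_of_nonneg_left h7 (by positivity)
    _ = 2 * C3 * (TA * ((E * σ + t0) * d)) := by ring
    _ ≤ 4 * C3 * F2 * (TA * ((E * σ + t0) * d)) := mul_le_mul_of_nonneg_right (by linarith) h9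
    _ = _ := by ring

theorem tPbM (h1 : SLN.PhNStmt) (h2 : MfiStmt) : SLN.PbMStmt := by
  intro k
  obtain ⟨C3, hC3, A3, hL⟩ := h2 k
  obtain ⟨F, hF⟩ : ∃ F : ℕ, F = (2 ^ k).factorial := ⟨_, rfl⟩
  have hF1 : 1 ≤ F := by
    rw [hF]
    exact Nat.factorial_pos _
  have hF1' : (1 : ℝ) ≤ F := by exact_mod_cast hF1
  have hC0 : 0 < C3 := by linarith
  have hF2 : (1 : ℝ) ≤ (F : ℝ) ^ 2 := one_le_pow₀ hF1'
  have hCF : C3 ≤ C3 * (F : ℝ) ^ 2 := le_mul_of_one_le_right hC0.le hF2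
  have hCC : C3 ≤ 4 * C3 * (F : ℝ) ^ 2 := by linarith
  refine ⟨4 * C3 * (F : ℝ) ^ 2, by linarith, A3, ?_⟩
  intro X T W W0 Z y Δ a g R S N H R0 t0 m P1 ρ q q' s1 s2 s1' s2' h h' hTau hsz ht0 hmρ hmR hX hZ hy hΔ hZΔ hS hS' hρy hh hh'
    hW0 hc1 hc2 hc3 hc4
  obtain ⟨hg, hR, hS1, hN, hH, hR0, hR0R, hRN⟩ := hsz
  have hT1 : 1 ≤ T := hTau.1
  have hT0 : 0 < T := by linarith
  have hN' : (1 : ℝ) ≤ N := by exact_mod_cast hN
  have hH' : (1 : ℝ) ≤ H := by exact_mod_cast hH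
  have hg' : (1 : ℝ) ≤ g := by exact_mod_cast hg
  have hR0' : (1 : ℝ) ≤ R0 := by exact_mod_cast hR0
  have hR' : (2 : ℝ) ≤ R := by exact_mod_cast hR
  have hS1' : (1 : ℝ) ≤ S := by exact_mod_cast hS1
  have ht0' : (1 : ℝ) ≤ t0 := by exact_mod_cast ht0
  have hZy : 1 ≤ Z * y := one_le_mul_of_one_le_of_one_le hZ hy
  have hc3' : C3 * (Z * y) ^ 2 ≤ W := le_trans (by gcongr) hc3
  have hW1 : 1 ≤ W := by
    have : 1 ≤ C3 * (Z * y) ^ 2 := one_le_mul_of_one_le_of_one_le hC3 (one_le_pow₀ hZy)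
    linarith
  have hpos : 0 ≤ (N : ℝ) ^ 2 * R0 / (g * (R : ℝ) ^ 2) := by positivity
  have hsum : 0 ≤ Δ + 1 / (t0 : ℝ) + 1 / W := by positivity
  rcases h1 a g ρ q q' s1 s2 s1' s2' h h' with hz | hP
  · rw [PbM_zero hz, norm_zero]
    positivity
  · obtain ⟨B, w1, w2, l, c1, c2, f1, f2, f3, f4, f5, f6, f7, f8, f9, f10,
      ⟨-, d1, d2, d1', d2', -, -, cc, cc'⟩, p1, p2, p3, p4, hFp⟩ := hP
    obtain ⟨⟨a1, a2⟩, ⟨a3, a4⟩, ⟨-, a5⟩, ⟨-, a6⟩, a7, a8, a9⟩ := hS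
    obtain ⟨-, ⟨a3', a4'⟩, ⟨-, a5'⟩, ⟨-, a6'⟩, a7', a8', a9'⟩ := hS'
    obtain ⟨b1, b2, b3, b4, b5⟩ := PbM_size hg f1 a1 a2 a3 a4 a3' a4'
    have es1 : s1 = g * (s1 / g) := (Nat.mul_div_cancel' d1).symm
    have es2 : s2 = g * (s2 / g) := (Nat.mul_div_cancel' d2).symm
    have es1' : s1' = g * (s1' / g) := (Nat.mul_div_cancel' d1').symm
    have es2' : s2' = g * (s2' / g) := (Nat.mul_div_cancel' d2').symm
    have sep : ∀ p : ℕ, p.Prime → p ∣ q * q' → ¬ p ∣ s1 / g * (s2 / g) ∧ ¬ p ∣ s1' / g * (s2' / g) := by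
      intro p hp hpq
      have hle : p ≤ P1 := by
        rcases (Nat.Prime.dvd_mul hp).1 hpq with h3 | h3
        · exact a7 p hp h3
        · exact a7' p hp h3
      constructor
      · intro hh0
        have h4 : p ∣ s1 * s2 := hh0.trans (Nat.mul_dvd_mul (Nat.div_dvd_of_dvd d1) (Nat.div_dvd_of_dvd d2))
        have := a8 p hp h4
        omega
      · intro hh0
        have h4 : p ∣ s1' * s2' := hh0.trans (Nat.mul_dvd_mul (Nat.div_dvd_of_dvd d1') (Nat.div_dvd_of_dvd d2'))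
        have := a8' p hp h4
        omega
    obtain ⟨GQ, G1, G2, g1, g2, g3, g4, g5, g6, g7, g8, g9, g10⟩ := PbM_types (k := k) hF hh.1 hh'.1 f1
      (by rw [← es1, ← es1']; exact f2) (by rw [← es2, ← es2']; exact f3) f4 f5 f9 f10
      (by rw [← es1]; exact cc) (by rw [← es1']; exact cc') sep p1 p2 p3 p4
    have hB1 : 1 ≤ B := by omega
    obtain ⟨r0, hr0⟩ := hmρ
    have hm1 : 1 ≤ m := by
      rcases Nat.eq_zero_or_pos m with h0 | h0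
      · rw [h0, zero_mul] at hr0
        omega
      · exact h0
    have hr0' : ρ / m = r0 := by
      rw [hr0]
      exact Nat.mul_div_cancel_left _ hm1
    obtain ⟨D, hD⟩ : ∃ D : ℕ, D = r0 * (g * Nat.lcm q q') := ⟨_, rfl⟩
    have hBD : B = m * D := by
      rw [f1, hr0, hD]
      ring
    have hD3 : 3 ≤ D := by
      by_contra hc
      have h3 : D ≤ 2 := by omega
      have h4 : B ≤ 2 * m := by
        rw [hBD]
        calc m * D ≤ m * 2 := Nat.mul_le_mul_left _ h3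
          _ = 2 * m := by ring
      have h5 : R * 1 ≤ R * g := Nat.mul_le_mul_left _ hg
      omega
    have hDB : D ≤ B := by
      rw [hBD]
      exact Nat.le_mul_of_pos_left _ hm1
    have hm' : (1 : ℝ) ≤ m := by exact_mod_cast hm1
    have hBD' : (B : ℝ) = (m : ℝ) * D := by
      rw [hBD]
      push_cast
      ring
    have hDB' : (D : ℝ) ≤ B := by exact_mod_cast hDB
    have hB' : (1 : ℝ) ≤ B := by exact_mod_cast hB1
    have b1' : (B : ℝ) * R0 ≤ 4 * (R : ℝ) ^ 2 * g := by exact_mod_cast b1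
    have b4' : (B : ℝ) ^ 2 ≤ 4 * (R : ℝ) ^ 2 * (g : ℝ) ^ 2 *
        ((q / Nat.gcd q q' * (q' / Nat.gcd q q') : ℕ) : ℝ) := by exact_mod_cast b4
    -- h h'
    have hab : ((h.natAbs * h'.natAbs : ℕ) : ℝ) ≤ (H : ℝ) * H := by
      have e1 : h.natAbs ≤ H := by
        have h3 := hh.2
        rw [Int.abs_eq_natAbs] at h3
        exact_mod_cast h3
      have e2 : h'.natAbs ≤ H := by
        have h3 := hh'.2
        rw [Int.abs_eq_natAbs] at h3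
        exact_mod_cast h3
      exact_mod_cast Nat.mul_le_mul e1 e2
    have g9' : (Wn (q * (s1 / g * (s2 / g))) (q' * (s1' / g * (s2' / g))) : ℝ) ≤
        F * ((H : ℝ) * H) * ((GQ * G1 * G2 : ℕ) : ℝ) := by
      calc (Wn (q * (s1 / g * (s2 / g))) (q' * (s1' / g * (s2' / g))) : ℝ) ≤
          ((F * (h.natAbs * h'.natAbs) * (GQ * G1 * G2) : ℕ) : ℝ) := by exact_mod_cast g9
        _ = F * ((h.natAbs * h'.natAbs : ℕ) : ℝ) * ((GQ * G1 * G2 : ℕ) : ℝ) := by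
            push_cast
            ring
        _ ≤ _ := by gcongr
    have g10' : ((q / Nat.gcd q q' * (q' / Nat.gcd q q') : ℕ) : ℝ) ≤ F * ((H : ℝ) * H) * (GQ : ℝ) := by
      calc ((q / Nat.gcd q q' * (q' / Nat.gcd q q') : ℕ) : ℝ) ≤
          ((F * (h.natAbs * h'.natAbs) * GQ : ℕ) : ℝ) := by exact_mod_cast g10
        _ = F * ((h.natAbs * h'.natAbs : ℕ) : ℝ) * (GQ : ℝ) := by
            push_cast
            ring
        _ ≤ _ := by gcongr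
    obtain ⟨r1, r2⟩ := PbM_real (N := (N : ℝ)) (R := (R : ℝ)) (GQ := (GQ : ℝ)) hW1 hZ hg' hH' hF1' hC3 (by linarith)
      (by exact_mod_cast hRN) (by exact_mod_cast g8) g9' g10' b4' hW0 hc2
    have e5 : ((GQ * G1 * G2 : ℕ) : ℝ) = (GQ : ℝ) * G1 * G2 := by push_cast; ring
    rw [e5] at r1 r2
    have hWB : (W * m) ^ 2 * (D : ℝ) ≤ (N : ℝ) ^ 2 := by
      have h3 : (R0 : ℝ) * ((W * m) ^ 2 * D) ≤ R0 * (N : ℝ) ^ 2 := by
        calc (R0 : ℝ) * ((W * m) ^ 2 * D) = W ^ 2 * m * (((m : ℝ) * D) * R0) := by ring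
          _ = W ^ 2 * m * (B * R0) := by rw [hBD']
          _ ≤ W ^ 2 * m * (4 * (R : ℝ) ^ 2 * g) := by gcongr
          _ = 4 * W ^ 2 * (R : ℝ) ^ 2 * g * m := by ring
          _ ≤ R0 * (N : ℝ) ^ 2 := hc1
      exact le_of_mul_le_mul_left h3 (by linarith)
    have r2' : (W * m * Z * (D : ℝ)) ^ 2 ≤ (N : ℝ) ^ 2 * GQ * (GQ * G1 * G2) := by
      calc (W * m * Z * (D : ℝ)) ^ 2 = (W * Z * ((m : ℝ) * D)) ^ 2 := by ring
        _ = (W * Z * B) ^ 2 := by rw [hBD']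
        _ ≤ _ := r2
    -- w1, w2
    have dv : ∀ {s : ℕ}, g ∣ s → s ≤ 2 * S → g * (s / g) ≤ 2 * S := by
      intro s h3 h4
      rw [Nat.mul_div_cancel' h3]
      exact h4
    have wb : ∀ {w s s' : ℕ}, w ∣ Nat.lcm (s / g) (s' / g) → g ∣ s → g ∣ s' → s ≤ 2 * S → s' ≤ 2 * S →
        1 ≤ w → Squarefree (B * w1) → 0 < s / g → 0 < s' / g → g ^ 2 * w ≤ 4 * S ^ 2 := by
      intro w s s' h3 h4 h5 h6 h7 _ _ h8 h9
      have h10 : w ≤ (s / g) * (s' / g) :=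
        Nat.le_of_dvd (Nat.mul_pos h8 h9) (h3.trans (SL.pha_lcm_mul _ _))
      calc g ^ 2 * w ≤ g ^ 2 * ((s / g) * (s' / g)) := Nat.mul_le_mul_left _ h10
        _ = (g * (s / g)) * (g * (s' / g)) := by ring
        _ ≤ (2 * S) * (2 * S) := Nat.mul_le_mul (dv h4 h6) (dv h5 h7)
        _ = 4 * S ^ 2 := by ring
    have posd : ∀ {s : ℕ}, g ∣ s → s ∣ B * w1 ∨ s ∣ B * w2 → 0 < s / g := by
      intro s h3 h4
      have h5 : 0 < s := by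
        rcases h4 with h4 | h4
        · exact Nat.pos_of_dvd_of_pos h4 (Nat.pos_of_ne_zero f4.ne_zero)
        · exact Nat.pos_of_dvd_of_pos h4 (Nat.pos_of_ne_zero f5.ne_zero)
      exact Nat.div_pos (Nat.le_of_dvd h5 h3) hg
    have t1 : s1 ∣ B * w1 := (dvd_mul_left s1 (ρ * q)).trans (f2 ▸ Nat.dvd_lcm_left _ _)
    have t1' : s1' ∣ B * w1 := (dvd_mul_left s1' (ρ * q')).trans (f2 ▸ Nat.dvd_lcm_right _ _)
    have t2 : s2 ∣ B * w2 := (dvd_mul_left s2 (ρ * q)).trans (f3 ▸ Nat.dvd_lcm_left _ _)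
    have t2' : s2' ∣ B * w2 := (dvd_mul_left s2' (ρ * q')).trans (f3 ▸ Nat.dvd_lcm_right _ _)
    have hw1 : g ^ 2 * w1 ≤ 4 * S ^ 2 :=
      wb f9 d1 d1' a5 a5' f7 f4 (posd d1 (Or.inl t1)) (posd d1' (Or.inl t1'))
    have hw2 : g ^ 2 * w2 ≤ 4 * S ^ 2 :=
      wb f10 d2 d2' a6 a6' f8 f4 (posd d2 (Or.inr t2)) (posd d2' (Or.inr t2'))
    have hw1' : (g : ℝ) ^ 2 * w1 ≤ 4 * (S : ℝ) ^ 2 := by exact_mod_cast hw1
    have hw2' : (g : ℝ) ^ 2 * w2 ≤ 4 * (S : ℝ) ^ 2 := by exact_mod_cast hw2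
    have hgS : g ≤ 2 * S := by
      have h3 := dv d1 a5
      have h4 := posd d1 (Or.inl t1)
      calc g = g * 1 := (mul_one g).symm
        _ ≤ g * (s1 / g) := Nat.mul_le_mul_left _ h4
        _ ≤ 2 * S := h3
    -- 8 N B ≤ X
    have hXB : 8 * (N : ℝ) * D ≤ X :=
      (mul_le_mul_of_nonneg_left hDB' (by positivity)).trans
        (PbM_X hN' (by linarith) hS1' hH' hR0' (Nat.cast_nonneg _) b1' (by exact_mod_cast hgS) hX)
    have hcase : (D : ℝ) * w1 * w2 ≤ (W / (C3 * (Z * y))) ^ k := by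
      have h3 : (D : ℝ) * w1 * w2 ≤ (B : ℝ) * w1 * w2 := by gcongr
      refine h3.trans ?_
      refine PbM_case hg' (Nat.cast_nonneg _) (Nat.cast_nonneg _) (Nat.cast_nonneg _) (Nat.cast_nonneg _) hR0' b1'
        hw1' hw2' hc4 ?_
      gcongr
    have hprime : ∀ p : ℕ, p.Prime → p ∣ D * w1 * w2 → (p : ℝ) ≤ y := by
      intro p hp hpd
      have hq1 : ∀ {z : ℕ}, z ∣ q * s1 * s2 → p ∣ z → (p : ℝ) ≤ y := fun h3 h4 => a9 p hp (h4.trans h3)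
      have hq2 : ∀ {z : ℕ}, z ∣ q' * s1' * s2' → p ∣ z → (p : ℝ) ≤ y := fun h3 h4 => a9' p hp (h4.trans h3)
      have hl : ∀ {u u' s s' : ℕ}, u ∣ s → u' ∣ s' → s ∣ q * s1 * s2 → s' ∣ q' * s1' * s2' → p ∣ Nat.lcm u u' →
          (p : ℝ) ≤ y := by
        intro u u' s s' hu hu' h3 h3' h4
        rcases (Nat.Prime.dvd_mul hp).1 (h4.trans (SL.pha_lcm_mul _ _)) with h5 | h5
        · exact hq1 h3 (h5.trans hu)
        · exact hq2 h3' (h5.trans hu')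
      rcases (Nat.Prime.dvd_mul hp).1 hpd with h3 | h3
      · rcases (Nat.Prime.dvd_mul hp).1 h3 with h4 | h4
        · rw [hD] at h4
          rcases (Nat.Prime.dvd_mul hp).1 h4 with h5 | h5
          · exact hρy p hp (by rw [hr0']; exact h5)
          · rcases (Nat.Prime.dvd_mul hp).1 h5 with h6 | h6
            · exact hq1 ⟨q * s2, by ring⟩ (h6.trans d1)
            · exact hl (dvd_refl q) (dvd_refl q') ⟨s1 * s2, by ring⟩ ⟨s1' * s2', by ring⟩ h6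
        · exact hl (Nat.div_dvd_of_dvd d1) (Nat.div_dvd_of_dvd d1') ⟨q * s2, by ring⟩ ⟨q' * s2', by ring⟩
            (h4.trans f9)
      · exact hl (Nat.div_dvd_of_dvd d2) (Nat.div_dvd_of_dvd d2') ⟨q * s1, by ring⟩ ⟨q' * s1', by ring⟩
          (h3.trans f10)
    have hGQ : GQ ∣ D := by
      rw [hD]
      exact dvd_mul_of_dvd_right g1 _
    rw [PbM_eq hFp]
    have key := hL X T W Z y Δ N m D w1 w2 GQ G1 G2 t0 l c1 c2 hTau hZ hy hΔ hZΔ hN ht0 hm1 hD3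
      (by rw [← hBD]; exact f4) (by rw [← hBD]; exact f5) (by rw [← hBD]; exact f6) hXB hprime hGQ g2 g3
      g4 g5 g6 g7 r1 hWB r2' hc3' hcase
    rw [← hBD, ← hBD'] at key
    refine key.trans ?_
    have h4 := PbM_NB (N := N) (by omega : 1 ≤ R) hB1 hg b2
    have h5 : (1 : ℝ) ≤ (Nat.gcd q q' : ℝ) := by exact_mod_cast b3
    exact PbM_end hC0.le hCF (by positivity) hpos hsum h5 (by linarith) h4

end Pool.Agent.Lib.NM
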