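import Pool.Agent.Lib.SLG.AllM
import Pool.Agent.Lib.NM.Mcl
import Pool.Agent.Lib.NM.Mgd
import Pool.Agent.Lib.NM.Mdc
import Pool.Agent.Lib.NM.Mfi
import Pool.Agent.Lib.NM.PbM
import Pool.Agent.Lib.SLN.PbF

/-!
MP_00e23e_nt, project NLM (arbitrary divisor m), chapter L (helper83, helper78, helper36, helper57): the final statements of the
lattice chapter without hypotheses.
-/

set_option autoImplicit false

namespace Pool.Agent.Lib.NM

open Pool.Agent.Lib

theorem aMgd : MgdStmt := tMgd SLG.tLbs tMcl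

theorem aMfi : MfiStmt :=
  tMfi SLG.tLbs SLG.aLin SLG.tLze SLG.aLalT SLG.tLmz SLG.aLliT tMcl aMgd tMdc (tMph SLG.aGsp)

/-- the pair bound for far pairs, m ∣ ρ arbitrary -/
theorem aPbM : SLN.PbMStmt := tPbM SLN.tPhN aMfi

/-- the trivial pair bound -/
theorem aPbT : SLN.PbTStmt := SLN.tPbT SLN.tPhN SLG.aLtr

end Pool.Agent.Lib.NM
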