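import Pool.Agent.Lib.NLB.AllN
import Pool.Agent.Lib.SLG.AllL
import Pool.Agent.Lib.SLG.AllM
import Pool.Agent.Lib.NM.Mcl
import Pool.Agent.Lib.NM.Mdc
import Pool.Agent.Lib.NM.Mgd
import Pool.Agent.Lib.NM.Mfi
import Pool.Agent.Lib.NM.PbM
import Pool.Agent.Lib.NMB.NumM
import Pool.Agent.Lib.NMB.BinM
import Pool.Agent.Lib.NMB.BncM
import Pool.Agent.Lib.NMB.BbbM
import Pool.Agent.Lib.NMB.BdrM
import Pool.Agent.Lib.NMB.BdsM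
import Pool.Agent.Lib.NMB.BgeM
import Pool.Agent.Lib.NMB.BfiM
import Pool.Agent.Lib.NMA.All
import Pool.Agent.Lib.NLE.EndM

/-! MP_00e23e_nt, project NLM (all classes, arbitrary part m ≤ x^μ, μ < 1/5): everything without hypotheses (glue; helper34). -/

namespace Pool.Agent.Lib.NM

theorem aBinM : NMB.BinMStmt :=
  NMB.tBinM NLS.aSecN (SLN.tPbT SLN.tPhN SLG.aLtr) (tPbM SLN.tPhN (tMfi SLG.tLbs SLG.aLin SLG.tLze SLG.aLalT SLG.tLmz SLG.aLliT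
    tMcl (tMgd SLG.tLbs tMcl) tMdc (tMph SLG.aGsp))) NMB.tNumM

theorem aBfiM : NMB.BfiMStmt :=
  NMB.tBfiM (NMB.tBdsM (NMB.tBdrM (NMB.tBbbM (NLB.tBdiN SLH.tDspT (NLB.tBgaN SLB.tBdh)) NMB.tBncM)) MK.tFsp) NLB.tBorN
    (NMB.tBgeM MI.tBid (SL.tBrg MI.tBph) (ML.tBlg MI.tLrgAll) MI.tLrgAll)

/-- THE THEOREM: all classes, arbitrary part m ≤ x^μ, μ < 1/5 -/
theorem aNlm : ∀ μ : ℝ, 0 ≤ μ → μ < 1 / 5 → ∃ δ : ℝ, 0 < δ ∧ NLF.NlA (NLF.Smq μ δ) δ ∧ NLF.NlR (NLF.Smq μ δ) δ δ :=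
  NLE.tEndM NMA.tMfiAll aBfiM aBinM

end Pool.Agent.Lib.NM
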