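import Pool.Agent.Lib.NMB.Spec
import Pool.Agent.Lib.NMA.Spec

/-!
MP_00e23e_nt, project NLM (all classes, moduli with an arbitrary divisor m ≤ x^μ, μ < 1/5): the choice of the parameters and the
theorem for the von Mangoldt function from the chapters T (BinM), B (BfiM) and A' (NMA.Mfi) (helper28).

For μ < 1/5: w = (1/5 - μ)/20, l = μ + w, ν = μ + 2w, θ = max (2ν) (1/3).
-/

namespace Pool.Agent.Lib.NM

open Pool.Agent.Lib.NMB (ParM BiMStmt BinMStmt BfiMStmt)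
open Pool.Agent.Lib.NMA (ParAM)

/-- the choice of the parameters: δ = κ = ε -/
theorem Par_choice (μ : ℝ) (h0 : 0 ≤ μ) (h1 : μ < 1 / 5) : ∃ ν θ l w e1 : ℝ, 0 < w ∧ 0 < e1 ∧ e1 ≤ 1 / 1000 ∧
    ∀ ε : ℝ, 0 < ε → ε ≤ e1 → ParM μ ν θ l w ε ε ε ∧ ParAM (1 / 2 + ε) (ε / 16) ν θ ε := by
  obtain ⟨w, hw⟩ : ∃ w : ℝ, w = (1 / 5 - μ) / 20 := ⟨_, rfl⟩
  have hw0 : 0 < w := by rw [hw]; linarith
  have hw1 : w ≤ 1 / 100 := by rw [hw]; linarith
  have hμ : μ = 1 / 5 - 20 * w := by rw [hw]; ring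
  refine ⟨μ + 2 * w, max (2 * (μ + 2 * w)) (1 / 3), μ + w, w, w / 100000, hw0, by positivity, by linarith, ?_⟩
  intro ε he he1
  have hθ1 : max (2 * (μ + 2 * w)) (1 / 3) ≤ 2 / 5 - 36 * w ∨ max (2 * (μ + 2 * w)) (1 / 3) = 1 / 3 := by
    rcases le_total (2 * (μ + 2 * w)) (1 / 3) with h | h
    · right; exact max_eq_right h
    · left; rw [max_eq_left h]; rw [hμ]; linarith
  have hθ2 : 2 * (μ + 2 * w) ≤ max (2 * (μ + 2 * w)) (1 / 3) := le_max_left _ _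
  have hθ3 : (1 : ℝ) / 3 ≤ max (2 * (μ + 2 * w)) (1 / 3) := le_max_right _ _
  obtain ⟨θ, hθ⟩ : ∃ θ : ℝ, θ = max (2 * (μ + 2 * w)) (1 / 3) := ⟨_, rfl⟩
  rw [← hθ] at hθ1 hθ2 hθ3 ⊢
  refine ⟨⟨⟨h0, hw0, by linarith, by linarith⟩, ⟨by linarith, hθ3, ?_⟩, ⟨he.le, le_refl _⟩, ⟨he, le_refl _⟩, by linarith⟩,
    ⟨he, by linarith, by positivity, by positivity, by linarith⟩, ⟨by linarith, by linarith, hθ3, ?_⟩, by linarith, by linarith⟩
  · rcases hθ1 with h | h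
    · linarith
    · rw [h]; linarith
  · rcases hθ1 with h | h
    · linarith
    · rw [h]; linarith

/-- the theorem for the von Mangoldt function: for every μ < 1/5 there is e > 0 such that CoreStmt holds for all moduli
q ≤ x^(1/2+e) with a divisor m ≤ x^μ such that all primes of q/m are ≤ x^e, all reduced classes, comparison divisor t ≤ x^(e/16) -/
theorem tParM (h1 : BinMStmt) (h2 : BfiMStmt) (h3 : NMA.MfiStmt) : ∀ μ : ℝ, 0 ≤ μ → μ < 1 / 5 → ∃ e : ℝ, 0 < e ∧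
    e ≤ 1 / 1000 ∧ SLA.CoreStmt (NLF.Hq (NLF.Smq μ e)) (1 / 2 + e) (e / 16) := by
  intro μ h0 h5
  obtain ⟨ν, θ, l, w, e1, hw, he1, he2, hP⟩ := Par_choice μ h0 h5
  obtain ⟨e0, he0, hB⟩ := h1 μ ν θ l w hw
  have hε : 0 < min e0 e1 := lt_min he0 he1
  obtain ⟨hp1, hp2⟩ := hP (min e0 e1) hε (min_le_right _ _)
  refine ⟨min e0 e1, hε, le_trans (min_le_right _ _) he2, ?_⟩
  exact h3 _ _ _ ν θ (min e0 e1) hp2 (h2 μ ν θ l w _ _ _ hp1 (hB _ _ _ (min_le_left _ _) hp1))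

/-- the final forms: the Bombieri-Vinogradov form and the form with the comparison divisor -/
theorem tParF (h1 : BinMStmt) (h2 : BfiMStmt) (h3 : NMA.MfiStmt) (h4 : NLF.FinStmt) (h5 : NLF.RonStmt) :
    ∀ μ : ℝ, 0 ≤ μ → μ < 1 / 5 → ∃ e : ℝ, 0 < e ∧ e ≤ 1 / 1000 ∧ NLF.NlA (NLF.Smq μ e) e ∧
      NLF.NlR (NLF.Smq μ e) e (e / 16) := by
  intro μ h0 h6
  obtain ⟨e, he, he1, hC⟩ := tParM h1 h2 h3 μ h0 h6
  exact ⟨e, he, he1, h4 _ e (e / 16) he.le (by linarith) (by positivity) (by linarith) hC,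
    h5 _ e (e / 16) he.le (by linarith) (by positivity) (by linarith) hC⟩

end Pool.Agent.Lib.NM
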